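import Pool.Agent.N472.MC.Part

set_option autoImplicit false

/-!
# The main inequality
-/

set_option linter.unusedSectionVars false

namespace Pool.Agent.N472.MC

open Finset

variable {V H : Type} [Fintype V] [DecidableEq V] [NormedAddCommGroup H] [InnerProductSpace ℝ H]

section D

variable {K : Type} [DecidableEq K] (c : V → K) (A : Matrix V V ℝ)

/-- the averaged matrix -/
noncomputable def DD (x y : V) : ℝ := ∑ x', ∑ y', P c x x' * A x' y' * P c y' y

theorem DD_form (p q : V → H) : ∑ x, ∑ y, A x y * inner ℝ (av c p x) (av c q y) =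
    ∑ x, ∑ y, DD c A x y * inner ℝ (p x) (q y) := by
  have h1 : ∀ x y, A x y * inner ℝ (av c p x) (av c q y) =
      ∑ x', ∑ y', P c x' x * A x y * P c y y' * inner ℝ (p x') (q y') := by
    intro x y
    unfold av
    rw [sum_inner, Finset.mul_sum]
    refine Finset.sum_congr rfl fun x' _ => ?_
    rw [inner_sum, Finset.mul_sum]
    refine Finset.sum_congr rfl fun y' _ => ?_
    rw [real_inner_smul_left, real_inner_smul_right, P_symm c x' x]
    ring
  calc ∑ x, ∑ y, A x y * inner ℝ (av c p x) (av c q y)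
      = ∑ x, ∑ y, ∑ x', ∑ y', P c x' x * A x y * P c y y' * inner ℝ (p x') (q y') :=
        Finset.sum_congr rfl fun x _ => Finset.sum_congr rfl fun y _ => h1 x y
    _ = ∑ x, ∑ x', ∑ y, ∑ y', P c x' x * A x y * P c y y' * inner ℝ (p x') (q y') :=
        Finset.sum_congr rfl fun x _ => Finset.sum_comm
    _ = ∑ x', ∑ x, ∑ y, ∑ y', P c x' x * A x y * P c y y' * inner ℝ (p x') (q y') :=
        Finset.sum_comm
    _ = ∑ x', ∑ x, ∑ y', ∑ y, P c x' x * A x y * P c y y' * inner ℝ (p x') (q y') :=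
        Finset.sum_congr rfl fun x' _ => Finset.sum_congr rfl fun x _ => Finset.sum_comm
    _ = ∑ x', ∑ y', ∑ x, ∑ y, P c x' x * A x y * P c y y' * inner ℝ (p x') (q y') :=
        Finset.sum_congr rfl fun x' _ => Finset.sum_comm
    _ = _ := by
        refine Finset.sum_congr rfl fun x' _ => Finset.sum_congr rfl fun y' _ => ?_
        unfold DD
        simp only [Finset.sum_mul]

theorem DD_nonneg (hA0 : ∀ x y, 0 ≤ A x y) (x y : V) : 0 ≤ DD c A x y :=
  Finset.sum_nonneg fun x' _ => Finset.sum_nonneg fun y' _ =>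
    mul_nonneg (mul_nonneg (P_nonneg c x x') (hA0 x' y')) (P_nonneg c y' y)

theorem DD_le (hA0 : ∀ x y, 0 ≤ A x y) (Δ : ℝ) (hΔ : ∀ x, ∑ y, A x y ≤ Δ) (x y : V) :
    DD c A x y ≤ Δ * (1 / ((univ.filter fun z => c z = c y).card : ℝ)) := by
  have h0 : (0 : ℝ) ≤ 1 / ((univ.filter fun z => c z = c y).card : ℝ) :=
    div_nonneg zero_le_one (cell_pos c y).le
  unfold DD
  calc ∑ x', ∑ y', P c x x' * A x' y' * P c y' y
      ≤ ∑ x', P c x x' * (Δ * (1 / ((univ.filter fun z => c z = c y).card : ℝ))) := by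
        refine Finset.sum_le_sum fun x' _ => ?_
        calc ∑ y', P c x x' * A x' y' * P c y' y
            ≤ ∑ y', P c x x' * A x' y' * (1 / ((univ.filter fun z => c z = c y).card : ℝ)) :=
              Finset.sum_le_sum fun y' _ => mul_le_mul_of_nonneg_left (P_le c y' y)
                (mul_nonneg (P_nonneg c x x') (hA0 x' y'))
          _ = P c x x' * ((∑ y', A x' y') *
              (1 / ((univ.filter fun z => c z = c y).card : ℝ))) := by
              rw [Finset.sum_mul, Finset.mul_sum]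
              refine Finset.sum_congr rfl fun y' _ => ?_
              ring
          _ ≤ _ := mul_le_mul_of_nonneg_left (mul_le_mul_of_nonneg_right (hΔ x') h0)
              (P_nonneg c x x')
    _ = _ := by rw [← Finset.sum_mul, P_row', one_mul]

theorem DD_sum : ∑ x, ∑ y, DD c A x y = ∑ x, ∑ y, A x y := by
  unfold DD
  calc ∑ x, ∑ y, ∑ x', ∑ y', P c x x' * A x' y' * P c y' y
      = ∑ x, ∑ x', ∑ y, ∑ y', P c x x' * A x' y' * P c y' y :=
        Finset.sum_congr rfl fun x _ => Finset.sum_comm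
    _ = ∑ x', ∑ x, ∑ y, ∑ y', P c x x' * A x' y' * P c y' y := Finset.sum_comm
    _ = ∑ x', ∑ x, ∑ y', ∑ y, P c x x' * A x' y' * P c y' y :=
        Finset.sum_congr rfl fun x' _ => Finset.sum_congr rfl fun x _ => Finset.sum_comm
    _ = ∑ x', ∑ x, ∑ y', P c x x' * A x' y' := by
        refine Finset.sum_congr rfl fun x' _ => Finset.sum_congr rfl fun x _ =>
          Finset.sum_congr rfl fun y' _ => ?_
        rw [← Finset.mul_sum, P_row', mul_one]
    _ = ∑ x', ∑ y', A x' y' := by
        refine Finset.sum_congr rfl fun x' _ => ?_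
        rw [Finset.sum_comm]
        refine Finset.sum_congr rfl fun y' _ => ?_
        rw [← Finset.sum_mul, P_row, one_mul]

/-- the averaged form is small -/
theorem DD_upper (h01 : ∀ x y, A x y = 0 ∨ A x y = 1) (hA : ∀ x y, A x y = A y x) (Δ : ℝ)
    (hΔ : ∀ x, ∑ y, A x y ≤ Δ) (hΔ0 : 0 ≤ Δ) (U : Finset V) (hU : ∀ x y, A x y ≠ 0 → x ∈ U)
    (hc : ∀ x y, c x = c y → (x ∈ U ↔ y ∈ U)) (p q : V → H) (hp : ∀ x, ‖p x‖ ≤ 1)
    (hq : ∀ x, ‖q x‖ ≤ 1) (b : ℝ) (hb : -1 ≤ b)
    (hbb : ∀ x ∈ U, ∀ y ∈ U, x ≠ y → A x y = 0 → inner ℝ (p x) (q y) ≤ b) :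
    ∑ x, ∑ y, DD c A x y * inner ℝ (p x) (q y) ≤
      b * ∑ x, ∑ y, A x y + 2 * (((univ.image c).card : ℝ) * (Δ * (Δ + 1))) := by
  have hA0 : ∀ x y, 0 ≤ A x y := fun x y => by
    rcases h01 x y with h | h <;> rw [h] <;> norm_num
  have hzero : ∀ x y, (x ∉ U ∨ y ∉ U) → DD c A x y = 0 := by
    intro x y hxy
    unfold DD
    refine Finset.sum_eq_zero fun x' _ => Finset.sum_eq_zero fun y' _ => ?_
    by_cases h1 : A x' y' = 0
    · rw [h1, mul_zero, zero_mul]
    · have hx' := hU x' y' h1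
      have hy' := hU y' x' (by rw [hA]; exact h1)
      rcases hxy with h | h
      · have : P c x x' = 0 := by
          unfold P
          rw [if_neg]
          intro hcc
          exact h ((hc x x' hcc).2 hx')
        rw [this, zero_mul, zero_mul]
      · have : P c y' y = 0 := by
          unfold P
          rw [if_neg]
          intro hcc
          exact h ((hc y' y hcc).1 hy')
        rw [this, mul_zero]
  have hpt : ∀ x y, DD c A x y * inner ℝ (p x) (q y) ≤
      b * DD c A x y + 2 * ((if x = y then 1 else 0) + A x y) * DD c A x y := by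
    intro x y
    have hD := DD_nonneg c A hA0 x y
    have h1 : inner ℝ (p x) (q y) ≤ 1 := by
      refine (real_inner_le_norm _ _).trans ?_
      exact mul_le_one₀ (hp x) (norm_nonneg _) (hq y)
    have hi : (0 : ℝ) ≤ if x = y then 1 else 0 := by split_ifs <;> norm_num
    by_cases hUU : x ∈ U ∧ y ∈ U
    · by_cases hxy : x = y
      · rw [if_pos hxy]
        have h2 : inner ℝ (p x) (q y) ≤ b + 2 * (1 + A x y) := by
          have := hA0 x y
          linarith
        have := mul_le_mul_of_nonneg_left h2 hD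
        linarith
      · rcases h01 x y with h | h
        · rw [h, if_neg hxy]
          have := mul_le_mul_of_nonneg_left (hbb x hUU.1 y hUU.2 hxy h) hD
          linarith
        · rw [h]
          have h2 : inner ℝ (p x) (q y) ≤ b + 2 * ((if x = y then 1 else 0) + 1) := by linarith
          have := mul_le_mul_of_nonneg_left h2 hD
          linarith
    · rw [hzero x y (by tauto)]
      simp
  have hsum : ∑ x, ∑ y, ((if x = y then 1 else 0) + A x y) * DD c A x y ≤
      ((univ.image c).card : ℝ) * (Δ * (Δ + 1)) := by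
    calc ∑ x, ∑ y, ((if x = y then 1 else 0) + A x y) * DD c A x y
        ≤ ∑ x, ∑ y, ((if x = y then 1 else 0) + A x y) *
          (Δ * (1 / ((univ.filter fun z => c z = c y).card : ℝ))) := by
          refine Finset.sum_le_sum fun x _ => Finset.sum_le_sum fun y _ => ?_
          refine mul_le_mul_of_nonneg_left (DD_le c A hA0 Δ hΔ x y) (add_nonneg ?_ (hA0 x y))
          split_ifs <;> norm_num
      _ = ∑ y, (∑ x, ((if x = y then 1 else 0) + A x y)) *
          (Δ * (1 / ((univ.filter fun z => c z = c y).card : ℝ))) := by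
          rw [Finset.sum_comm]
          refine Finset.sum_congr rfl fun y _ => ?_
          rw [Finset.sum_mul]
      _ ≤ ∑ y, (Δ + 1) * (Δ * (1 / ((univ.filter fun z => c z = c y).card : ℝ))) := by
          refine Finset.sum_le_sum fun y _ => mul_le_mul_of_nonneg_right ?_
            (mul_nonneg hΔ0 (div_nonneg zero_le_one (cell_pos c y).le))
          rw [Finset.sum_add_distrib, Finset.sum_ite_eq' univ y, if_pos (mem_univ _)]
          have : ∑ x, A x y = ∑ x, A y x := Finset.sum_congr rfl fun x _ => hA x y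
          rw [this]
          have := hΔ y
          linarith
      _ = (Δ * (Δ + 1)) * ∑ y, 1 / ((univ.filter fun z => c z = c y).card : ℝ) := by
          rw [Finset.mul_sum]
          refine Finset.sum_congr rfl fun y _ => ?_
          ring
      _ = _ := by
          rw [sum_inv c]
          ring
  calc ∑ x, ∑ y, DD c A x y * inner ℝ (p x) (q y)
      ≤ ∑ x, ∑ y, (b * DD c A x y + 2 * ((if x = y then 1 else 0) + A x y) * DD c A x y) :=
        Finset.sum_le_sum fun x _ => Finset.sum_le_sum fun y _ => hpt x y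
    _ = b * ∑ x, ∑ y, DD c A x y +
          2 * ∑ x, ∑ y, ((if x = y then 1 else 0) + A x y) * DD c A x y := by
        simp only [Finset.sum_add_distrib, Finset.mul_sum]
        congr 1
        refine Finset.sum_congr rfl fun x _ => Finset.sum_congr rfl fun y _ => ?_
        ring
    _ ≤ _ := by
        rw [DD_sum]
        linarith

end D

theorem core (A : Matrix V V ℝ) (h01 : ∀ x y, A x y = 0 ∨ A x y = 1)
    (hA : ∀ x y, A x y = A y x) (Δ : ℝ) (hΔ : ∀ x, ∑ y, A x y ≤ Δ) (hΔ1 : 1 ≤ Δ) (U : Finset V)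
    (hU : ∀ x y, A x y ≠ 0 → x ∈ U) (p q : V → H) (hp : ∀ x, ‖p x‖ ≤ 1) (hq : ∀ x, ‖q x‖ ≤ 1)
    (a b : ℝ) (hb : -1 ≤ b) (haa : ∀ x y, A x y ≠ 0 → a ≤ inner ℝ (p x) (q y))
    (hbb : ∀ x ∈ U, ∀ y ∈ U, x ≠ y → A x y = 0 → inner ℝ (p x) (q y) ≤ b) (k : ℕ) (hk : 1 ≤ k)
    (S τ n : ℝ) (hS : 1 ≤ S) (hτ : 0 < τ) (hn : (Fintype.card V : ℝ) = n) (hn0 : 0 < n)
    (hloc : ∀ x, (A ^ (2 * k)) x x ≤ S * τ ^ (2 * k) / n) :
    (a - b) * ∑ x, ∑ y, A x y ≤ 8 * (7 * S ^ 3) ^ S * Δ ^ 2 + 6 * τ * n := by
  classical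
  obtain ⟨lam, w, hw1, hw⟩ := spec A hA
  have hS0 : 0 < S := by linarith
  have heven : ∀ i, 0 ≤ lam i ^ (2 * k) := fun i => by
    rw [pow_mul]
    positivity
  -- local bound
  have hF1 : ∀ i x, lam i ^ (2 * k) * w i x ^ 2 ≤ S * τ ^ (2 * k) / n := by
    intro i x
    refine le_trans ?_ (hloc x)
    rw [hw (2 * k) x x]
    have := Finset.single_le_sum (s := univ) (f := fun i => lam i ^ (2 * k) * w i x * w i x)
      (fun j _ => by
        have := heven j
        have h2 : lam j ^ (2 * k) * w j x * w j x = lam j ^ (2 * k) * w j x ^ 2 := by ring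
        show 0 ≤ lam j ^ (2 * k) * w j x * w j x
        rw [h2]
        positivity) (mem_univ i)
    refine le_trans (le_of_eq ?_) this
    ring
  have hF2 : ∑ i, lam i ^ (2 * k) ≤ S * τ ^ (2 * k) := by
    calc ∑ i, lam i ^ (2 * k) = ∑ x, (A ^ (2 * k)) x x := by
          simp only [hw (2 * k)]
          rw [Finset.sum_comm]
          refine Finset.sum_congr rfl fun i _ => ?_
          have h2 := hw1 i i
          rw [if_pos rfl] at h2
          calc lam i ^ (2 * k) = lam i ^ (2 * k) * ∑ x, w i x * w i x := by rw [h2, mul_one]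
            _ = ∑ x, lam i ^ (2 * k) * w i x * w i x := by
                rw [Finset.mul_sum]
                refine Finset.sum_congr rfl fun x _ => ?_
                ring
      _ ≤ ∑ _x : V, S * τ ^ (2 * k) / n := Finset.sum_le_sum fun x _ => hloc x
      _ = S * τ ^ (2 * k) := by
          rw [sum_const, nsmul_eq_mul, card_univ, hn]
          field_simp
  have hτk : 0 < τ ^ (2 * k) := pow_pos hτ _
  set I := univ.filter fun i => τ < |lam i| with hI
  have hge : ∀ i ∈ I, τ ^ (2 * k) ≤ lam i ^ (2 * k) := by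
    intro i hi
    rw [hI, mem_filter] at hi
    rw [← (even_two_mul k).pow_abs (lam i)]
    exact pow_le_pow_left₀ hτ.le hi.2.le _
  have hcard : (I.card : ℝ) ≤ S := by
    have h1 : (I.card : ℝ) * τ ^ (2 * k) ≤ S * τ ^ (2 * k) := by
      calc (I.card : ℝ) * τ ^ (2 * k) = ∑ _i ∈ I, τ ^ (2 * k) := by
            rw [sum_const, nsmul_eq_mul]
        _ ≤ ∑ i ∈ I, lam i ^ (2 * k) := Finset.sum_le_sum hge
        _ ≤ ∑ i, lam i ^ (2 * k) :=
            Finset.sum_le_sum_of_subset_of_nonneg (subset_univ _) fun i _ _ => heven i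
        _ ≤ _ := hF2
    exact le_of_mul_le_mul_right h1 hτk
  have hlam : ∀ i, |lam i| ≤ S * τ := by
    intro i
    have h1 : |lam i| ^ (2 * k) ≤ (S * τ) ^ (2 * k) := by
      rw [(even_two_mul k).pow_abs (lam i), mul_pow]
      calc lam i ^ (2 * k) ≤ ∑ i, lam i ^ (2 * k) :=
            Finset.single_le_sum (fun j _ => heven j) (mem_univ i)
        _ ≤ S * τ ^ (2 * k) := hF2
        _ ≤ S ^ (2 * k) * τ ^ (2 * k) := by
            refine mul_le_mul_of_nonneg_right ?_ hτk.le
            exact le_self_pow₀ hS (by omega)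
    exact le_of_pow_le_pow_left₀ (by omega) (by positivity) h1
  have hwb : ∀ i ∈ I, ∀ x, w i x ^ 2 ≤ S / n := by
    intro i hi x
    have h1 := (mul_le_mul_of_nonneg_right (hge i hi) (sq_nonneg (w i x))).trans (hF1 i x)
    have h2 : τ ^ (2 * k) * w i x ^ 2 ≤ τ ^ (2 * k) * (S / n) := by
      refine h1.trans (le_of_eq ?_)
      ring
    exact le_of_mul_le_mul_left h2 hτk
  -- the partition
  set θ : ℝ := 1 / (S ^ 2 * Real.sqrt n) with hθ
  have hsn : 0 < Real.sqrt n := Real.sqrt_pos.2 hn0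
  have hθ0 : 0 < θ := by rw [hθ]; positivity
  let c : V → ({i // i ∈ I} → ℤ) × Bool := fun x => (fun i => ⌊w i.1 x / θ⌋, decide (x ∈ U))
  have hcU : ∀ x y, c x = c y → (x ∈ U ↔ y ∈ U) := by
    intro x y h
    have h2 : decide (x ∈ U) = decide (y ∈ U) := congrArg Prod.snd h
    simpa using h2
  have hround : ∀ i ∈ I, ∀ f : V → H, (∀ x, ‖f x‖ ≤ 1) →
      ‖∑ y, w i y • (f y - av c f y)‖ ^ 2 ≤ 4 * n / S ^ 4 := by
    intro i hi f hf
    have h1 := av_small c f hf (fun x => θ * (⌊w i x / θ⌋ : ℝ)) (w i)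
      (fun x y hxy => by
        have h2 : (fun i : {i // i ∈ I} => ⌊w i.1 x / θ⌋) = fun i => ⌊w i.1 y / θ⌋ :=
          congrArg Prod.fst hxy
        have h3 := congrFun h2 ⟨i, hi⟩
        simp only at h3
        simp only [h3]) θ
      (fun x => by
        have h2 := Int.floor_le (w i x / θ)
        have h3 := Int.lt_floor_add_one (w i x / θ)
        have h4 : w i x = θ * (w i x / θ) := by field_simp
        rw [abs_le]
        constructor
        · have := mul_le_mul_of_nonneg_left h2 hθ0.le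
          rw [← h4] at this
          linarith
        · have := mul_le_mul_of_nonneg_left h3.le hθ0.le
          rw [← h4] at this
          linarith)
    rw [hn] at h1
    have h5 := pow_le_pow_left₀ (norm_nonneg _) h1 2
    refine h5.trans (le_of_eq ?_)
    rw [hθ]
    have h6 : Real.sqrt n ^ 2 = n := Real.sq_sqrt hn0.le
    rw [mul_pow, mul_pow, div_pow, mul_pow, h6]
    field_simp
    ring
  -- number of cells
  have hcells : ((univ.image c).card : ℝ) ≤ 2 * (7 * S ^ 3) ^ S := by
    obtain ⟨B, hB⟩ : ∃ B : ℕ, B = ⌈S ^ 3⌉₊ + 1 := ⟨_, rfl⟩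
    have hB1 : S ^ 3 + 1 ≤ (B : ℝ) := by
      rw [hB]
      push_cast
      have := Nat.le_ceil (S ^ 3)
      linarith
    have hB2 : (B : ℝ) ≤ S ^ 3 + 2 := by
      rw [hB]
      push_cast
      have := (Nat.ceil_lt_add_one (by positivity : (0 : ℝ) ≤ S ^ 3)).le
      linarith
    have hsub : univ.image c ⊆
        (Fintype.piFinset fun _ : {i // i ∈ I} => Icc (-(B : ℤ)) B) ×ˢ (univ : Finset Bool) := by
      intro v hv
      obtain ⟨x, -, rfl⟩ := mem_image.1 hv
      rw [mem_product]
      refine ⟨?_, mem_univ _⟩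
      rw [Fintype.mem_piFinset]
      rintro ⟨i, hi⟩
      have h1 := hwb i hi x
      have h2 : |w i x / θ| ≤ S ^ 3 := by
        have h3 : (w i x / θ) ^ 2 ≤ (S ^ 3) ^ 2 := by
          rw [hθ]
          have h6 : Real.sqrt n ^ 2 = n := Real.sq_sqrt hn0.le
          have h7 : (w i x / (1 / (S ^ 2 * Real.sqrt n))) ^ 2 = w i x ^ 2 * (S ^ 4 * n) := by
            rw [div_div_eq_mul_div, div_one, mul_pow, mul_pow, h6]
            ring
          rw [h7]
          calc w i x ^ 2 * (S ^ 4 * n) ≤ S / n * (S ^ 4 * n) :=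
                mul_le_mul_of_nonneg_right h1 (by positivity)
            _ = S ^ 5 := by field_simp
            _ ≤ S ^ 5 * S := le_mul_of_one_le_right (by positivity) hS
            _ = (S ^ 3) ^ 2 := by ring
        exact abs_le_of_sq_le_sq h3 (by positivity)
      rw [abs_le] at h2
      rw [mem_Icc]
      constructor
      · rw [Int.le_floor]
        push_cast
        linarith
      · have h3 := Int.floor_le (w i x / θ)
        have h4 : ((⌊w i x / θ⌋ : ℤ) : ℝ) ≤ ((B : ℤ) : ℝ) := by
          push_cast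
          linarith
        exact_mod_cast h4
    have h1 := card_le_card hsub
    rw [card_product, Fintype.card_piFinset, prod_const, Int.card_Icc, Finset.card_univ,
      Finset.card_univ, Fintype.card_bool, Fintype.card_coe] at h1
    have h2 : ((B : ℤ) + 1 - -(B : ℤ)).toNat = 2 * B + 1 := by omega
    rw [h2] at h1
    have h3 : ((univ.image c).card : ℝ) ≤ (2 * (B : ℝ) + 1) ^ I.card * 2 := by exact_mod_cast h1
    have hS3 : 1 ≤ S ^ 3 := one_le_pow₀ hS
    have h4 : 2 * (B : ℝ) + 1 ≤ 7 * S ^ 3 := by linarith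
    calc ((univ.image c).card : ℝ) ≤ (2 * (B : ℝ) + 1) ^ I.card * 2 := h3
      _ ≤ (7 * S ^ 3) ^ I.card * 2 :=
          mul_le_mul_of_nonneg_right (pow_le_pow_left₀ (by positivity) h4 _) (by norm_num)
      _ = (7 * S ^ 3) ^ (I.card : ℝ) * 2 := by rw [Real.rpow_natCast]
      _ ≤ (7 * S ^ 3) ^ S * 2 := by
          refine mul_le_mul_of_nonneg_right ?_ (by norm_num)
          exact Real.rpow_le_rpow_of_exponent_le (by linarith) hcard
      _ = _ := by ring
  -- the two differences
  have hd : ∀ f g : V → H, (∀ x, ‖f x‖ ≤ 1) → (∀ x, ‖g x‖ ≤ 1) →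
      |∑ x, ∑ y, A x y * inner ℝ (f x - av c f x) (g y)| ≤ 3 * τ * n := by
    intro f g hf hg
    refine small A hA lam w hw τ S n hτ.le hS hn hcard hlam (fun x => f x - av c f x) g
      (fun x => ?_) hg (fun i hi => hround i (by rw [hI, mem_filter]; exact ⟨mem_univ _, hi⟩) f hf)
    refine (norm_sub_le _ _).trans ?_
    have := hf x
    have := av_norm c f hf x
    linarith
  have hd1 := hd p q hp hq
  have hd2 := hd q (av c p) hq (av_norm c p hp)
  have hdec : ∑ x, ∑ y, A x y * inner ℝ (p x) (q y) =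
      ∑ x, ∑ y, A x y * inner ℝ (p x - av c p x) (q y) +
      ∑ x, ∑ y, A x y * inner ℝ (q x - av c q x) (av c p y) +
      ∑ x, ∑ y, A x y * inner ℝ (av c p x) (av c q y) := by
    have h2 : ∑ x, ∑ y, A x y * inner ℝ (q x - av c q x) (av c p y) =
        ∑ x, ∑ y, A x y * inner ℝ (av c p x) (q y - av c q y) := by
      rw [Finset.sum_comm]
      refine Finset.sum_congr rfl fun x _ => Finset.sum_congr rfl fun y _ => ?_
      rw [hA y x, real_inner_comm]
    rw [h2, ← Finset.sum_add_distrib, ← Finset.sum_add_distrib]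
    refine Finset.sum_congr rfl fun x _ => ?_
    rw [← Finset.sum_add_distrib, ← Finset.sum_add_distrib]
    refine Finset.sum_congr rfl fun y _ => ?_
    rw [inner_sub_left, inner_sub_right]
    ring
  have hlow : a * ∑ x, ∑ y, A x y ≤ ∑ x, ∑ y, A x y * inner ℝ (p x) (q y) := by
    rw [Finset.mul_sum]
    refine Finset.sum_le_sum fun x _ => ?_
    rw [Finset.mul_sum]
    refine Finset.sum_le_sum fun y _ => ?_
    rcases h01 x y with h | h
    · rw [h, mul_zero, zero_mul]
    · rw [h, mul_one, one_mul]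
      exact haa x y (by rw [h]; norm_num)
  have hup := DD_upper c A h01 hA Δ hΔ (by linarith) U hU hcU p q hp hq b hb hbb
  rw [DD_form] at hdec
  have h1 := (abs_le.1 hd1).2
  have h2 := (abs_le.1 hd2).2
  have h3 : 2 * (((univ.image c).card : ℝ) * (Δ * (Δ + 1))) ≤ 8 * (7 * S ^ 3) ^ S * Δ ^ 2 := by
    have h4 : Δ * (Δ + 1) ≤ 2 * Δ ^ 2 := by nlinarith
    calc 2 * (((univ.image c).card : ℝ) * (Δ * (Δ + 1)))
        ≤ 2 * ((2 * (7 * S ^ 3) ^ S) * (2 * Δ ^ 2)) := by
          refine mul_le_mul_of_nonneg_left (mul_le_mul hcells h4 (by positivity) ?_) (by norm_num)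
          positivity
      _ = _ := by ring
  have h5 : (a - b) * ∑ x, ∑ y, A x y = a * ∑ x, ∑ y, A x y - b * ∑ x, ∑ y, A x y := by ring
  linarith

end Pool.Agent.N472.MC
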