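import Pool.Agent.N472.MC.Num
import Pool.Agent.TH815.GR8
import Pool.Agent.N471.CC.Graph

set_option autoImplicit false

/-!
# Graphs of girth greater than `2 k` and large margins
-/

set_option linter.unusedSectionVars false

namespace Pool.Agent.N472.MC

open Finset

/-- the part of `G` in `U` -/
def sub {V : Type} (G : SimpleGraph V) (U : Finset V) : SimpleGraph V where
  Adj x y := x ∈ U ∧ y ∈ U ∧ G.Adj x y
  symm := ⟨fun _ _ h => ⟨h.2.1, h.1, h.2.2.symm⟩⟩
  loopless := ⟨fun _ h => G.irrefl h.2.2⟩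

theorem sub_le {V : Type} (G : SimpleGraph V) (U : Finset V) : sub G U ≤ G :=
  fun _ _ h => h.2.2

section

variable {V H : Type} [Fintype V] [NormedAddCommGroup H] [InnerProductSpace ℝ H]

/-- the inequality for graphs with bounded degrees in `U` -/
theorem bounded [DecidableEq V] (G : SimpleGraph V) (k : ℕ) (hk : 2 ≤ k)
    (hg : ((2 * k : ℕ) : ℕ∞) < G.egirth)
    (U : Finset V) (c β C₄ d : ℝ) (hc : 0 < c) (hβ : 1 ≤ β)
    (hC : C₄ = 2 ^ (2 * k) + 4 ^ k * (k + 1) ^ 2 * β ^ k * (12 / c) ^ (2 * k))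
    (hn : 1 ≤ (Fintype.card V : ℝ)) (hd : d = (Fintype.card V : ℝ) ^ (1 / (k : ℝ)))
    (hdeg : ∀ x, ∑ y, am (sub G U) x y ≤ β * d)
    (hed : c * (Fintype.card V : ℝ) * d ≤ ∑ x, ∑ y, am (sub G U) x y)
    (u v : V → H) (hu : ∀ x, ‖u x‖ ≤ 1) (hv : ∀ x, ‖v x‖ ≤ 1) (a b : ℝ) (hb : -1 ≤ b)
    (hab : b < a) (ha : a ≤ 1) (haa : ∀ x y, G.Adj x y → a ≤ inner ℝ (u x) (v y))
    (hbb : ∀ x y, x ≠ y → ¬ G.Adj x y → inner ℝ (u x) (v y) ≤ b) :
    (a - b) ^ (2 * k + 1) * Real.log (Fintype.card V) ≤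
      2 * (2 ^ (2 * k + 1) * |Real.log (16 * β ^ 2 / c)| +
      2 ^ (2 * k) + 14 * C₄ + 6 * C₄ * |Real.log C₄| + 6 * k * C₄) := by
  classical
  obtain ⟨n, hn'⟩ : ∃ n : ℝ, (Fintype.card V : ℝ) = n := ⟨_, rfl⟩
  rw [hn'] at hn hd hed ⊢
  obtain ⟨ε, hε⟩ : ∃ ε, ε = a - b := ⟨_, rfl⟩
  rw [← hε]
  have hε0 : 0 < ε := by rw [hε]; linarith
  have hε2 : ε ≤ 2 := by rw [hε]; linarith
  have hn0 : 0 < n := by linarith
  have hk0 : (0 : ℝ) < k := by
    have : 0 < k := by omega
    exact_mod_cast this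
  have hd1 : 1 ≤ d := by
    rw [hd]
    exact Real.one_le_rpow hn (by positivity)
  have hd0 : 0 < d := by linarith
  have hdk : d ^ k = n := by
    rw [hd, ← Real.rpow_natCast, ← Real.rpow_mul hn0.le, one_div, inv_mul_cancel₀ hk0.ne',
      Real.rpow_one]
  have hβ0 : 0 < β := by linarith
  have hC0 : 0 < C₄ := by rw [hC]; positivity
  have hgs : ((2 * k : ℕ) : ℕ∞) < (sub G U).egirth :=
    hg.trans_le (SimpleGraph.egirth_anti (sub_le G U))
  obtain ⟨A, hA⟩ : ∃ A, A = am (sub G U) := ⟨_, rfl⟩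
  rw [← hA] at hdeg hed
  have h01 : ∀ x y, A x y = 0 ∨ A x y = 1 := by
    intro x y
    rw [hA]
    unfold am
    split_ifs
    · exact Or.inr rfl
    · exact Or.inl rfl
  have hadj : ∀ x y, A x y ≠ 0 → (sub G U).Adj x y := by
    intro x y h
    by_contra hn
    apply h
    rw [hA]
    unfold am
    rw [if_neg hn]
  have hE : 0 < ε ^ (2 * k) := pow_pos hε0 _
  have hloc : ∀ x, (A ^ (2 * k)) x x ≤
      (C₄ / ε ^ (2 * k)) * (c * ε / 12 * d) ^ (2 * k) / n := by
    intro x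
    have h1 := closed hgs (β * d) (by positivity) (fun x => by rw [← hA]; exact hdeg x) x
    rw [← hA] at h1
    refine h1.trans ?_
    have h2 : (C₄ / ε ^ (2 * k)) * (c * ε / 12 * d) ^ (2 * k) / n =
        C₄ * (c / 12) ^ (2 * k) * n := by
      have e1 : (c * ε / 12 * d) ^ (2 * k) = (c / 12) ^ (2 * k) * ε ^ (2 * k) * n ^ 2 := by
        rw [show c * ε / 12 * d = (c / 12) * ε * d by ring, mul_pow, mul_pow]
        congr 1
        rw [mul_comm 2 k, pow_mul, hdk]
      rw [e1]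
      field_simp
    rw [h2, mul_pow, hdk]
    have h3 : 4 ^ k * (k + 1) ^ 2 * β ^ k ≤ C₄ * (c / 12) ^ (2 * k) := by
      have e2 : (12 / c) ^ (2 * k) * (c / 12) ^ (2 * k) = 1 := by
        rw [← mul_pow]
        have : 12 / c * (c / 12) = 1 := by field_simp
        rw [this, one_pow]
      have e3 : (0 : ℝ) ≤ 2 ^ (2 * k) * (c / 12) ^ (2 * k) := by positivity
      calc (4 : ℝ) ^ k * (k + 1) ^ 2 * β ^ k
          = 4 ^ k * (k + 1) ^ 2 * β ^ k * ((12 / c) ^ (2 * k) * (c / 12) ^ (2 * k)) := by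
            rw [e2, mul_one]
        _ ≤ 2 ^ (2 * k) * (c / 12) ^ (2 * k) +
            4 ^ k * (k + 1) ^ 2 * β ^ k * ((12 / c) ^ (2 * k) * (c / 12) ^ (2 * k)) := by
            linarith
        _ = C₄ * (c / 12) ^ (2 * k) := by
            rw [hC]
            ring
    calc 4 ^ k * ((k : ℝ) + 1) ^ 2 * (β ^ k * n) = 4 ^ k * (k + 1) ^ 2 * β ^ k * n := by ring
      _ ≤ C₄ * (c / 12) ^ (2 * k) * n := mul_le_mul_of_nonneg_right h3 hn0.le
  have hS : 1 ≤ C₄ / ε ^ (2 * k) := by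
    rw [one_le_div hE]
    calc ε ^ (2 * k) ≤ 2 ^ (2 * k) := pow_le_pow_left₀ hε0.le hε2 _
      _ ≤ C₄ := by
          rw [hC]
          have : (0 : ℝ) ≤ 4 ^ k * (k + 1) ^ 2 * β ^ k * (12 / c) ^ (2 * k) := by positivity
          linarith
  have hcore := core A h01 (fun x y => by rw [hA]; exact am_symm x y) (β * d) hdeg
    (by nlinarith) U (fun x y h => (hadj x y h).1) u v hu hv a b hb
    (fun x y h => haa x y (hadj x y h).2.2)
    (fun x hx y hy hxy h => hbb x y hxy (fun hG => by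
      have : A x y = 1 := by
        rw [hA]
        unfold am
        rw [if_pos]
        exact ⟨hx, hy, hG⟩
      rw [this] at h
      exact one_ne_zero h)) k (by omega) (C₄ / ε ^ (2 * k)) (c * ε / 12 * d) n hS
    (by positivity) hn' hn0 hloc
  rw [← hε] at hcore
  refine numer k hk c β C₄ ε n d hc hβ0 hC0 hε0 hε2 hn hd ?_
  have h1 := mul_le_mul_of_nonneg_left hed hε0.le
  have h2 : 6 * (c * ε / 12 * d) * n = c * ε * n * d / 2 := by ring
  have h3 : ε * (c * n * d) = c * ε * n * d := by ring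
  linarith

end

/-- **Main theorem.** -/
theorem margin (k : ℕ) (hk : 2 ≤ k) (c : ℝ) (hc : 0 < c) : ∃ C : ℝ, 0 ≤ C ∧
    ∀ (V : Type) [Fintype V] (H : Type) [NormedAddCommGroup H] [InnerProductSpace ℝ H]
      (G : SimpleGraph V) (u v : V → H) (a b : ℝ), -1 ≤ b → b < a → a ≤ 1 →
      ((2 * k : ℕ) : ℕ∞) < G.egirth →
      c * (Fintype.card V : ℝ) ^ (1 + 1 / (k : ℝ)) ≤ Nat.card G.edgeSet →
      (∀ x, ‖u x‖ ≤ 1) → (∀ x, ‖v x‖ ≤ 1) →
      (∀ x y, G.Adj x y → a ≤ inner ℝ (u x) (v y)) →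
      (∀ x y, x ≠ y → ¬ G.Adj x y → inner ℝ (u x) (v y) ≤ b) →
      (a - b) ^ (2 * k + 1) * Real.log (Fintype.card V) ≤ C := by
  obtain ⟨β, hβ⟩ : ∃ β, β = 512 / c + 1 := ⟨_, rfl⟩
  obtain ⟨C₄, hC⟩ : ∃ C₄ : ℝ,
    C₄ = 2 ^ (2 * k) + 4 ^ k * (k + 1) ^ 2 * β ^ k * (12 / c) ^ (2 * k) := ⟨_, rfl⟩
  have hβ1 : 1 ≤ β := by
    rw [hβ]
    have : 0 < 512 / c := by positivity
    linarith
  have hC0 : 0 < C₄ := by
    have : 0 < β := by linarith
    rw [hC]
    positivity
  have hk0 : (0 : ℝ) < k := by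
    have : 0 < k := by omega
    exact_mod_cast this
  refine ⟨2 * (2 ^ (2 * k + 1) * |Real.log (16 * β ^ 2 / c)| +
      2 ^ (2 * k) + 14 * C₄ + 6 * C₄ * |Real.log C₄| + 6 * k * C₄) +
      2 ^ (2 * k + 1) * (k * |Real.log (64 / c)|), by positivity, ?_⟩
  intro V _ H _ _ G u v a b hb hab ha hg he hu hv haa hbb
  classical
  have hb1 : 0 ≤ 2 * (2 ^ (2 * k + 1) * |Real.log (16 * β ^ 2 / c)| +
      2 ^ (2 * k) + 14 * C₄ + 6 * C₄ * |Real.log C₄| + 6 * k * C₄) := by positivity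
  have hb2 : 0 ≤ 2 ^ (2 * k + 1) * (k * |Real.log (64 / c)|) := by positivity
  rcases Nat.eq_zero_or_pos (Fintype.card V) with h0 | h0
  · rw [h0, Nat.cast_zero, Real.log_zero, mul_zero]
    linarith
  have hn : (1 : ℝ) ≤ (Fintype.card V : ℝ) := by exact_mod_cast h0
  have hn0 : (0 : ℝ) < (Fintype.card V : ℝ) := by linarith
  obtain ⟨d, hd⟩ : ∃ d, d = (Fintype.card V : ℝ) ^ (1 / (k : ℝ)) := ⟨_, rfl⟩
  have hd0 : 0 < d := by rw [hd]; exact Real.rpow_pos_of_pos hn0 _
  rcases lt_or_ge d (64 / c) with hlt | hge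
  · have h1 : Real.log (Fintype.card V) ≤ k * |Real.log (64 / c)| := by
      have h2 : Real.log (Fintype.card V) = k * Real.log d := by
        rw [hd, Real.log_rpow hn0]
        field_simp
      rw [h2]
      refine mul_le_mul_of_nonneg_left ?_ hk0.le
      exact (Real.log_le_log hd0 hlt.le).trans (le_abs_self _)
    have h3 : (a - b) ^ (2 * k + 1) ≤ 2 ^ (2 * k + 1) :=
      pow_le_pow_left₀ (by linarith) (by linarith) _
    have h4 : 0 ≤ Real.log (Fintype.card V) := Real.log_nonneg hn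
    calc (a - b) ^ (2 * k + 1) * Real.log (Fintype.card V)
        ≤ 2 ^ (2 * k + 1) * Real.log (Fintype.card V) := mul_le_mul_of_nonneg_right h3 h4
      _ ≤ 2 ^ (2 * k + 1) * (k * |Real.log (64 / c)|) :=
          mul_le_mul_of_nonneg_left h1 (by positivity)
      _ ≤ _ := by linarith
  · have he' : c * (Fintype.card V : ℝ) ^ (1 + 1 / (k : ℝ)) ≤ (G.edgeFinset.card : ℝ) := by
      refine he.trans (le_of_eq ?_)
      rw [Nat.card_eq_fintype_card, ← SimpleGraph.edgeFinset_card]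
    obtain ⟨U, hU1, hU2⟩ := Pool.TH815.GR.almost_all G (k := k) (by omega)
      ((Pool.TH815.GR.egirth_iff G (2 * k)).1 hg) c (1 / 2) hc (by norm_num)
      (by
        rw [← hd]
        refine le_trans (le_of_eq ?_) hge
        field_simp
        norm_num) he'
    have hrow : ∀ x, ∑ y, am (sub G U) x y =
        if x ∈ U then ((U.filter fun y => G.Adj x y).card : ℝ) else 0 := by
      intro x
      by_cases hx : x ∈ U
      · rw [if_pos hx]
        unfold am
        rw [← Finset.sum_filter, sum_const, nsmul_eq_mul, mul_one]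
        congr 2
        ext y
        rw [mem_filter, mem_filter]
        constructor
        · rintro ⟨-, h⟩
          exact ⟨h.2.1, h.2.2⟩
        · rintro ⟨h1, h2⟩
          exact ⟨mem_univ _, hx, h1, h2⟩
      · rw [if_neg hx]
        refine Finset.sum_eq_zero fun y _ => ?_
        unfold am
        rw [if_neg]
        intro h
        exact hx h.1
    have hmain := bounded G k hk hg U c β C₄ d hc hβ1 hC hn hd (fun x => by
        rw [hrow x]
        split_ifs with hx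
        · have h1 := (hU2 x hx).2
          have h2 : ((U.filter fun y => G.Adj x y).card : ℝ) ≤ (G.degree x : ℝ) := by
            have : (U.filter fun y => G.Adj x y).card ≤ G.degree x := by
              rw [← G.card_neighborFinset_eq_degree]
              refine card_le_card fun y hy => ?_
              rw [mem_filter] at hy
              rw [SimpleGraph.mem_neighborFinset]
              exact hy.2
            exact_mod_cast this
          refine h2.trans (h1.trans ?_)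
          rw [← hd, hβ]
          have e1 : 256 / (1 / 2 * c) = 512 / c := by
            field_simp
            norm_num
          rw [e1]
          refine mul_le_mul_of_nonneg_right ?_ hd0.le
          linarith
        · positivity)
      (by
        have h1 : ∑ x, ∑ y, am (sub G U) x y = ∑ x ∈ U, ((U.filter fun y => G.Adj x y).card : ℝ) := by
          simp only [hrow]
          rw [Finset.sum_ite_mem, univ_inter]
        rw [h1]
        refine le_trans ?_ hU1
        have h2 : (Fintype.card V : ℝ) ^ (1 + 1 / (k : ℝ)) = Fintype.card V * d := by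
          rw [hd, Real.rpow_add hn0, Real.rpow_one]
        rw [h2] at he'
        linarith) u v hu hv a b hb hab ha haa hbb
    linarith

open Pool.Agent.N471.CC in
/-- A combination of rectangles is given by vectors. -/
theorem vectors {V : Type} (K : ℝ) (hK : 0 < K) (M : V → V → ℝ) (h : RC True K M) :
    ∃ (ι : Type) (_ : Fintype ι) (u v : V → EuclideanSpace ℝ ι), (∀ x, ‖u x‖ ≤ 1) ∧
      (∀ x, ‖v x‖ ≤ 1) ∧ ∀ x y, inner ℝ (u x) (v y) = M x y / K := by
  obtain ⟨ι, hι, c, A, B, h0, h1, h2⟩ := h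
  have hc : ∀ i, 0 ≤ c i := h0 trivial
  have hn : ∀ (T : ι → Set V) (x : V),
      ‖(WithLp.toLp 2 (fun i => Real.sqrt (c i / K) * ind (T i) x) : EuclideanSpace ℝ ι)‖ ≤ 1 := by
    intro T x
    rw [EuclideanSpace.norm_eq]
    refine Real.sqrt_le_iff.2 ⟨zero_le_one, ?_⟩
    rw [one_pow]
    calc ∑ i, ‖Real.sqrt (c i / K) * ind (T i) x‖ ^ 2 ≤ ∑ i, c i / K := by
          refine Finset.sum_le_sum fun i _ => ?_
          have e1 : 0 ≤ c i / K := div_nonneg (hc i) hK.le
          rw [Real.norm_eq_abs, sq_abs, mul_pow, Real.sq_sqrt e1]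
          have e2 : ind (T i) x ^ 2 ≤ 1 := pow_le_one₀ (ind_nonneg _ _) (ind_le_one _ _)
          have := mul_le_mul_of_nonneg_left e2 e1
          linarith
      _ = (∑ i, |c i|) / K := by
          rw [Finset.sum_div]
          refine Finset.sum_congr rfl fun i _ => ?_
          rw [abs_of_nonneg (hc i)]
      _ ≤ 1 := by
          rw [div_le_one hK]
          exact h1
  refine ⟨ι, hι, fun x => WithLp.toLp 2 (fun i => Real.sqrt (c i / K) * ind (A i) x),
    fun y => WithLp.toLp 2 (fun i => Real.sqrt (c i / K) * ind (B i) y), hn A, hn B, ?_⟩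
  intro x y
  rw [PiLp.inner_apply, h2, Finset.sum_div]
  refine Finset.sum_congr rfl fun i _ => ?_
  have e1 : 0 ≤ c i / K := div_nonneg (hc i) hK.le
  have e2 := Real.mul_self_sqrt e1
  simp only [RCLike.inner_apply, conj_trivial]
  calc Real.sqrt (c i / K) * ind (B i) y * (Real.sqrt (c i / K) * ind (A i) x)
      = (Real.sqrt (c i / K) * Real.sqrt (c i / K)) * (ind (A i) x * ind (B i) y) := by ring
    _ = c i * (ind (A i) x * ind (B i) y) / K := by
        rw [e2]
        ring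

open Pool.Agent.N471.CC in
/-- Randomised communication. -/
theorem protocols (k : ℕ) (hk : 2 ≤ k) (c₀ : ℝ) (hc : 0 < c₀) : ∃ C : ℝ, 0 ≤ C ∧
    ∀ (V : Type) [Fintype V] (G : SimpleGraph V) (c : ℕ), ((2 * k : ℕ) : ℕ∞) < G.egirth →
      c₀ * (Fintype.card V : ℝ) ^ (1 + 1 / (k : ℝ)) ≤ Nat.card G.edgeSet → Decides G c →
      Real.log (Fintype.card V) ≤ C * 2 ^ ((2 * k + 1) * c) := by
  obtain ⟨C, hC0, hC⟩ := margin k hk c₀ hc
  refine ⟨3 ^ (2 * k + 1) * C, by positivity, ?_⟩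
  intro V _ G c hg he hdec
  obtain ⟨M, hM, hM1, hM2⟩ := hdec.rc
  have hK : (0 : ℝ) < 3 / 2 * 2 ^ c := by positivity
  have hK1 : (1 : ℝ) ≤ 3 / 2 * 2 ^ c := by
    have : (1 : ℝ) ≤ 2 ^ c := one_le_pow₀ (by norm_num)
    linarith
  obtain ⟨ι, hι, u, v, hu, hv, huv⟩ := vectors _ hK M hM
  have h1 := hC V (EuclideanSpace ℝ ι) G u v (1 / (3 / 2 * 2 ^ c)) (1 / 2 / (3 / 2 * 2 ^ c))
    (by
      have : (0 : ℝ) ≤ 1 / 2 / (3 / 2 * 2 ^ c) := by positivity
      linarith)
    (by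
      rw [div_lt_div_iff_of_pos_right hK]
      norm_num)
    (by
      rw [div_le_one hK]
      exact hK1) hg he hu hv
    (fun x y hxy => by
      rw [huv]
      exact div_le_div_of_nonneg_right (hM1 x y hxy) hK.le)
    (fun x y hne hxy => by
      rw [huv]
      exact div_le_div_of_nonneg_right (hM2 x y hne hxy) hK.le)
  have h2 : (1 : ℝ) / (3 / 2 * 2 ^ c) - 1 / 2 / (3 / 2 * 2 ^ c) = 1 / (3 * 2 ^ c) := by
    field_simp
    norm_num
  rw [h2] at h1
  have h3 : (1 / (3 * 2 ^ c) : ℝ) ^ (2 * k + 1) * (3 ^ (2 * k + 1) * 2 ^ ((2 * k + 1) * c)) = 1 := by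
    rw [mul_comm (2 * k + 1) c, pow_mul, ← mul_pow, ← mul_pow]
    have : (1 / (3 * 2 ^ c) : ℝ) * (3 * 2 ^ c) = 1 := by
      field_simp
    rw [this, one_pow]
  calc Real.log (Fintype.card V)
      = ((1 / (3 * 2 ^ c) : ℝ) ^ (2 * k + 1) * Real.log (Fintype.card V)) *
        (3 ^ (2 * k + 1) * 2 ^ ((2 * k + 1) * c)) := by
        rw [mul_comm ((1 / (3 * 2 ^ c) : ℝ) ^ (2 * k + 1)), mul_assoc, h3, mul_one]
    _ ≤ C * (3 ^ (2 * k + 1) * 2 ^ ((2 * k + 1) * c)) :=
        mul_le_mul_of_nonneg_right h1 (by positivity)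
    _ = _ := by ring

end Pool.Agent.N472.MC
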