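import Pool.Agent.N472.MC.Fin
import Pool.Agent.N721.SR.C2kReg

set_option autoImplicit false

/-!
# Graphs without `C_{2k}` and large margins
-/

set_option linter.unusedSectionVars false

namespace Pool.Agent.N472.MC

open Finset

section

variable {V H : Type} [Fintype V] [NormedAddCommGroup H] [InnerProductSpace ℝ H]

/-- the inequality for graphs with bounded degrees and few closed walks in `U` -/
theorem boundedM [DecidableEq V] (G : SimpleGraph V) (k : ℕ) (hk : 2 ≤ k) (M : ℝ) (hM : 0 ≤ M)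
    (U : Finset V) (c β C₄ d : ℝ) (hc : 0 < c) (hβ : 1 ≤ β)
    (hC : C₄ = 2 ^ (2 * k) + M * (12 / c) ^ (2 * k))
    (hn : 1 ≤ (Fintype.card V : ℝ)) (hd : d = (Fintype.card V : ℝ) ^ (1 / (k : ℝ)))
    (hdeg : ∀ x, ∑ y, am (sub G U) x y ≤ β * d)
    (hdiag : ∀ x, (am (sub G U) ^ (2 * k)) x x ≤ M * (Fintype.card V : ℝ))
    (hed : c * (Fintype.card V : ℝ) * d ≤ ∑ x, ∑ y, am (sub G U) x y)
    (u v : V → H) (hu : ∀ x, ‖u x‖ ≤ 1) (hv : ∀ x, ‖v x‖ ≤ 1) (a b : ℝ) (hb : -1 ≤ b)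
    (hab : b < a) (ha : a ≤ 1) (haa : ∀ x y, G.Adj x y → a ≤ inner ℝ (u x) (v y))
    (hbb : ∀ x y, x ≠ y → ¬ G.Adj x y → inner ℝ (u x) (v y) ≤ b) :
    (a - b) ^ (2 * k + 1) * Real.log (Fintype.card V) ≤
      2 * (2 ^ (2 * k + 1) * |Real.log (16 * β ^ 2 / c)| +
      2 ^ (2 * k) + 14 * C₄ + 6 * C₄ * |Real.log C₄| + 6 * k * C₄) := by
  classical
  obtain ⟨n, hn'⟩ : ∃ n : ℝ, (Fintype.card V : ℝ) = n := ⟨_, rfl⟩
  rw [hn'] at hn hd hed hdiag ⊢
  obtain ⟨ε, hε⟩ : ∃ ε, ε = a - b := ⟨_, rfl⟩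
  rw [← hε]
  have hε0 : 0 < ε := by rw [hε]; linarith
  have hε2 : ε ≤ 2 := by rw [hε]; linarith
  have hn0 : 0 < n := by linarith
  have hk0 : (0 : ℝ) < k := by
    have : 0 < k := by omega
    exact_mod_cast this
  have hd1 : 1 ≤ d := by
    rw [hd]
    exact Real.one_le_rpow hn (by positivity)
  have hd0 : 0 < d := by linarith
  have hdk : d ^ k = n := by
    rw [hd, ← Real.rpow_natCast, ← Real.rpow_mul hn0.le, one_div, inv_mul_cancel₀ hk0.ne',
      Real.rpow_one]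
  have hβ0 : 0 < β := by linarith
  have hC0 : 0 < C₄ := by rw [hC]; positivity
  obtain ⟨A, hA⟩ : ∃ A, A = am (sub G U) := ⟨_, rfl⟩
  rw [← hA] at hdeg hed hdiag
  have h01 : ∀ x y, A x y = 0 ∨ A x y = 1 := by
    intro x y
    rw [hA]
    unfold am
    split_ifs
    · exact Or.inr rfl
    · exact Or.inl rfl
  have hadj : ∀ x y, A x y ≠ 0 → (sub G U).Adj x y := by
    intro x y h
    by_contra hn
    apply h
    rw [hA]
    unfold am
    rw [if_neg hn]
  have hE : 0 < ε ^ (2 * k) := pow_pos hε0 _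
  have hloc : ∀ x, (A ^ (2 * k)) x x ≤
      (C₄ / ε ^ (2 * k)) * (c * ε / 12 * d) ^ (2 * k) / n := by
    intro x
    refine (hdiag x).trans ?_
    have h2 : (C₄ / ε ^ (2 * k)) * (c * ε / 12 * d) ^ (2 * k) / n =
        C₄ * (c / 12) ^ (2 * k) * n := by
      have e1 : (c * ε / 12 * d) ^ (2 * k) = (c / 12) ^ (2 * k) * ε ^ (2 * k) * n ^ 2 := by
        rw [show c * ε / 12 * d = (c / 12) * ε * d by ring, mul_pow, mul_pow]
        congr 1
        rw [mul_comm 2 k, pow_mul, hdk]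
      rw [e1]
      field_simp
    rw [h2]
    have h3 : M ≤ C₄ * (c / 12) ^ (2 * k) := by
      have e2 : (12 / c) ^ (2 * k) * (c / 12) ^ (2 * k) = 1 := by
        rw [← mul_pow]
        have : 12 / c * (c / 12) = 1 := by field_simp
        rw [this, one_pow]
      have e3 : (0 : ℝ) ≤ 2 ^ (2 * k) * (c / 12) ^ (2 * k) := by positivity
      calc M = M * ((12 / c) ^ (2 * k) * (c / 12) ^ (2 * k)) := by
            rw [e2, mul_one]
        _ ≤ 2 ^ (2 * k) * (c / 12) ^ (2 * k) +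
            M * ((12 / c) ^ (2 * k) * (c / 12) ^ (2 * k)) := by
            linarith
        _ = C₄ * (c / 12) ^ (2 * k) := by
            rw [hC]
            ring
    exact mul_le_mul_of_nonneg_right h3 hn0.le
  have hS : 1 ≤ C₄ / ε ^ (2 * k) := by
    rw [one_le_div hE]
    calc ε ^ (2 * k) ≤ 2 ^ (2 * k) := pow_le_pow_left₀ hε0.le hε2 _
      _ ≤ C₄ := by
          rw [hC]
          have : (0 : ℝ) ≤ M * (12 / c) ^ (2 * k) := by positivity
          linarith
  have hcore := core A h01 (fun x y => by rw [hA]; exact am_symm x y) (β * d) hdeg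
    (by nlinarith) U (fun x y h => (hadj x y h).1) u v hu hv a b hb
    (fun x y h => haa x y (hadj x y h).2.2)
    (fun x hx y hy hxy h => hbb x y hxy (fun hG => by
      have : A x y = 1 := by
        rw [hA]
        unfold am
        rw [if_pos]
        exact ⟨hx, hy, hG⟩
      rw [this] at h
      exact one_ne_zero h)) k (by omega) (C₄ / ε ^ (2 * k)) (c * ε / 12 * d) n hS
    (by positivity) hn' hn0 hloc
  rw [← hε] at hcore
  refine numer k hk c β C₄ ε n d hc hβ0 hC0 hε0 hε2 hn hd ?_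
  have h1 := mul_le_mul_of_nonneg_left hed hε0.le
  have h2 : 6 * (c * ε / 12 * d) * n = c * ε * n * d / 2 := by ring
  have h3 : ε * (c * n * d) = c * ε * n * d := by ring
  linarith

end

open Pool.Agent.N721.SR in
/-- Bounded degrees and few closed walks after the deletion of a few edges (the proof of
`c2k_regular` of helper721). -/
theorem c2k_clean {k : ℕ} (hk : 2 ≤ k) (η : ℝ) (hη : 0 < η) :
    ∃ (B M : ℝ) (n₀ : ℕ), 0 < B ∧ 0 < M ∧ 1 ≤ n₀ ∧
      ∀ (V : Type) [Fintype V] [DecidableEq V] (G : SimpleGraph V) [DecidableRel G.Adj],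
      (SimpleGraph.cycleGraph (2 * k)).Free G → n₀ ≤ Fintype.card V →
      ∃ H : Finset V,
        ee G H univ ≤ η * (Fintype.card V : ℝ) ^ (1 + 1 / (k : ℝ)) ∧
        (∀ v, ((del G H).degree v : ℝ) ≤ B * (Fintype.card V : ℝ) ^ (1 / (k : ℝ))) ∧
        ∀ v, ((del G H).adjMatrix ℝ ^ (2 * k)) v v ≤ M * (Fintype.card V : ℝ) := by
  classical
  have hP := c2k_her hk
  have hk0 : (0 : ℝ) < k := by
    have : 0 < k := by omega
    exact_mod_cast this
  have hk2 : (2 : ℝ) ≤ k := by exact_mod_cast hk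
  have hα0 : 0 < 1 / (k : ℝ) := by positivity
  have hα1 : 1 / (k : ℝ) ≤ 1 := by
    rw [div_le_one hk0]; linarith
  obtain ⟨C₀, hC₀, hF⟩ := bondy_simonovits hk hP
  obtain ⟨B, n₀, hB, hn₀, htail⟩ := hP.tail (1 / (k : ℝ)) C₀ hα0 hα1 hC₀ hF (η / 2) (by positivity)
  set M₁ : ℝ := (8 * (k : ℝ) ^ 2) ^ (k - 1) * B ^ k with hM₁
  have hM₁0 : 0 < M₁ := by positivity
  set θ : ℝ := η / (2 * B) with hθ
  have hθ0 : 0 < θ := by positivity
  set M₂ : ℝ := M₁ / θ with hM₂
  have hM₂0 : 0 < M₂ := by positivity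
  refine ⟨B, M₂, n₀, hB, hM₂0, hn₀, fun V _ _ G _ hG hge => ?_⟩
  set n : ℝ := (Fintype.card V : ℝ) with hn
  set N : ℝ := n ^ (1 / (k : ℝ)) with hN
  have hn1 : 1 ≤ Fintype.card V := hn₀.trans hge
  have hn0 : 0 < n := by rw [hn]; exact_mod_cast hn1
  have hN0 : 0 < N := by positivity
  have hNk : N ^ k = n := rpow_root (by omega) n hn0.le
  have hrp : n ^ (1 + 1 / (k : ℝ)) = n * N := by
    rw [Real.rpow_add hn0, Real.rpow_one]
  set H₁ : Finset V := univ.filter fun x => B * N < ee G {x} univ with hH₁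
  obtain ⟨ht, -⟩ := htail V G hG hge H₁ (fun x hx => by
    rw [hH₁, mem_filter] at hx
    exact hx.2)
  rw [← hn, ← hN] at ht
  have hx₁ : ∀ x ∉ H₁, ee G {x} univ ≤ B * N := by
    intro x hx
    rw [hH₁, mem_filter] at hx
    push Not at hx
    exact hx (mem_univ x)
  have hdeg : ∀ v, ((del G H₁).degree v : ℝ) ≤ B * N :=
    del_degree G H₁ (B * N) (by positivity) hx₁
  have hfree : (SimpleGraph.cycleGraph (2 * k)).Free (del G H₁) := by
    intro hcon
    exact hG (hcon.trans (SimpleGraph.IsContained.of_le (del_le G H₁)))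
  have htr := trace_C2k (del G H₁) hk hfree (B * N) hdeg
  rw [mul_pow B N k, hNk, ← hn] at htr
  set H₂ := univ.filter fun v => M₂ * n < ((del G H₁).adjMatrix ℝ ^ (2 * k)) v v with hH₂
  have hdiag := local_clean G H₁ (2 * k) (by omega) (M₂ * n) (by positivity)
  rw [← hH₂] at hdiag
  have hH₂c : (#H₂ : ℝ) ≤ θ * n := by
    have h1 : (#H₂ : ℝ) * (M₂ * n) ≤ ∑ v, ((del G H₁).adjMatrix ℝ ^ (2 * k)) v v := by
      calc (#H₂ : ℝ) * (M₂ * n) ≤ ∑ v ∈ H₂, ((del G H₁).adjMatrix ℝ ^ (2 * k)) v v := by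
            rw [← nsmul_eq_mul]
            exact card_nsmul_le_sum _ _ _ fun x hx => by
              rw [hH₂, mem_filter] at hx
              exact hx.2.le
        _ ≤ _ := by
            refine sum_le_sum_of_subset_of_nonneg (subset_univ _) fun v _ _ => ?_
            exact (pow_mono_entry _ _ (adj_nonneg (del G H₁)) (fun _ _ => le_rfl)
              (2 * k) v v).1
    have h2 : (#H₂ : ℝ) * (M₂ * n) ≤ (θ * n) * (M₂ * n) := by
      refine (h1.trans htr).trans (le_of_eq ?_)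
      have e1 : θ * M₂ = M₁ := by rw [hM₂]; field_simp
      calc (8 * (k : ℝ) ^ 2) ^ (k - 1) * (B ^ k * n) * n = M₁ * (n * n) := by rw [hM₁]; ring
        _ = (θ * M₂) * (n * n) := by rw [e1]
        _ = _ := by ring
    exact le_of_mul_le_mul_right h2 (by positivity)
  refine ⟨H₁ ∪ H₂, ?_, ?_, hdiag⟩
  · have e0 : ee G (H₁ ∪ H₂) univ = ee G H₁ univ + ee G (H₂ \ H₁) univ := by
      have e2 : H₁ ∪ H₂ = H₁ ∪ (H₂ \ H₁) := by rw [union_sdiff_self_eq_union]
      rw [e2, ee_union_left _ _ _ _ disjoint_sdiff]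
    have e3 : ee G (H₂ \ H₁) univ ≤ (θ * n) * (B * N) := by
      rw [ee_degree']
      calc ∑ x ∈ H₂ \ H₁, ee G {x} univ ≤ ∑ _x ∈ H₂ \ H₁, B * N := by
            refine sum_le_sum fun x hx => ?_
            rw [mem_sdiff] at hx
            exact hx₁ x hx.2
        _ = (#(H₂ \ H₁) : ℝ) * (B * N) := by rw [sum_const, nsmul_eq_mul]
        _ ≤ (#H₂ : ℝ) * (B * N) := by
            have : #(H₂ \ H₁) ≤ #H₂ := card_le_card sdiff_subset
            have h2 : (#(H₂ \ H₁) : ℝ) ≤ #H₂ := by exact_mod_cast this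
            gcongr
        _ ≤ _ := by gcongr
    have e4 : (θ * n) * (B * N) = η / 2 * (n * N) := by rw [hθ]; field_simp
    rw [hrp, e0]
    rw [e4] at e3
    linarith
  · intro v
    have hle : ((del G (H₁ ∪ H₂)).degree v : ℝ) ≤ ((del G H₁).degree v : ℝ) := by
      have : (del G (H₁ ∪ H₂)).degree v ≤ (del G H₁).degree v := by
        refine SimpleGraph.degree_le_of_le ?_
        intro x y h
        exact ⟨h.1, fun hx => h.2.1 (mem_union_left _ hx), fun hy => h.2.2 (mem_union_left _ hy)⟩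
      exact_mod_cast this
    exact hle.trans (hdeg v)

open Pool.Agent.N721.SR in
/-- **Main theorem** for graphs without `C_{2k}`. -/
theorem marginC (k : ℕ) (hk : 2 ≤ k) (c : ℝ) (hc : 0 < c) : ∃ C : ℝ, 0 ≤ C ∧
    ∀ (V : Type) [Fintype V] (H : Type) [NormedAddCommGroup H] [InnerProductSpace ℝ H]
      (G : SimpleGraph V) (u v : V → H) (a b : ℝ), -1 ≤ b → b < a → a ≤ 1 →
      (SimpleGraph.cycleGraph (2 * k)).Free G →
      c * (Fintype.card V : ℝ) ^ (1 + 1 / (k : ℝ)) ≤ Nat.card G.edgeSet →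
      (∀ x, ‖u x‖ ≤ 1) → (∀ x, ‖v x‖ ≤ 1) →
      (∀ x y, G.Adj x y → a ≤ inner ℝ (u x) (v y)) →
      (∀ x y, x ≠ y → ¬ G.Adj x y → inner ℝ (u x) (v y) ≤ b) →
      (a - b) ^ (2 * k + 1) * Real.log (Fintype.card V) ≤ C := by
  classical
  obtain ⟨B, M, n₀, hB, hM, hn₀, hclean⟩ := c2k_clean hk (c / 2) (by positivity)
  obtain ⟨β, hβ⟩ : ∃ β, β = B + 1 := ⟨_, rfl⟩
  obtain ⟨C₄, hC⟩ : ∃ C₄ : ℝ, C₄ = 2 ^ (2 * k) + M * (12 / c) ^ (2 * k) := ⟨_, rfl⟩
  have hβ1 : 1 ≤ β := by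
    rw [hβ]
    linarith
  have hC0 : 0 < C₄ := by
    rw [hC]
    positivity
  have hk0 : (0 : ℝ) < k := by
    have : 0 < k := by omega
    exact_mod_cast this
  refine ⟨2 * (2 ^ (2 * k + 1) * |Real.log (16 * β ^ 2 / c)| +
      2 ^ (2 * k) + 14 * C₄ + 6 * C₄ * |Real.log C₄| + 6 * k * C₄) +
      2 ^ (2 * k + 1) * |Real.log n₀|, by positivity, ?_⟩
  intro V _ H _ _ G u v a b hb hab ha hg he hu hv haa hbb
  have hb1 : 0 ≤ 2 * (2 ^ (2 * k + 1) * |Real.log (16 * β ^ 2 / c)| +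
      2 ^ (2 * k) + 14 * C₄ + 6 * C₄ * |Real.log C₄| + 6 * k * C₄) := by positivity
  have hb2 : 0 ≤ 2 ^ (2 * k + 1) * |Real.log n₀| := by positivity
  rcases Nat.eq_zero_or_pos (Fintype.card V) with h0 | h0
  · rw [h0, Nat.cast_zero, Real.log_zero, mul_zero]
    linarith
  have hn : (1 : ℝ) ≤ (Fintype.card V : ℝ) := by exact_mod_cast h0
  have hn0 : (0 : ℝ) < (Fintype.card V : ℝ) := by linarith
  obtain ⟨d, hd⟩ : ∃ d, d = (Fintype.card V : ℝ) ^ (1 / (k : ℝ)) := ⟨_, rfl⟩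
  have hd0 : 0 < d := by rw [hd]; exact Real.rpow_pos_of_pos hn0 _
  rcases lt_or_ge (Fintype.card V) n₀ with hlt | hge
  · have h1 : Real.log (Fintype.card V) ≤ |Real.log n₀| := by
      refine (Real.log_le_log hn0 ?_).trans (le_abs_self _)
      exact_mod_cast hlt.le
    have h3 : (a - b) ^ (2 * k + 1) ≤ 2 ^ (2 * k + 1) :=
      pow_le_pow_left₀ (by linarith) (by linarith) _
    have h4 : 0 ≤ Real.log (Fintype.card V) := Real.log_nonneg hn
    calc (a - b) ^ (2 * k + 1) * Real.log (Fintype.card V)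
        ≤ 2 ^ (2 * k + 1) * Real.log (Fintype.card V) := mul_le_mul_of_nonneg_right h3 h4
      _ ≤ 2 ^ (2 * k + 1) * |Real.log n₀| := mul_le_mul_of_nonneg_left h1 (by positivity)
      _ ≤ _ := by linarith
  · obtain ⟨T, hT1, hT2, hT3⟩ := hclean V G hg hge
    rw [← hd] at hT2
    have hmat : am (sub G Tᶜ) = (del G T).adjMatrix ℝ := by
      ext x y
      rw [SimpleGraph.adjMatrix_apply]
      unfold am
      by_cases h : (del G T).Adj x y
      · rw [if_pos h, if_pos]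
        exact ⟨mem_compl.2 h.2.1, mem_compl.2 h.2.2, h.1⟩
      · rw [if_neg h, if_neg]
        intro h'
        exact h ⟨h'.2.2, mem_compl.1 h'.1, mem_compl.1 h'.2.1⟩
    have hrow : ∀ x, ∑ y, (del G T).adjMatrix ℝ x y = ((del G T).degree x : ℝ) := by
      intro x
      simp only [SimpleGraph.adjMatrix_apply]
      rw [← Finset.sum_filter, sum_const, nsmul_eq_mul, mul_one,
        ← SimpleGraph.card_neighborFinset_eq_degree, SimpleGraph.neighborFinset_eq_filter]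
    have hmain := boundedM G k hk M hM.le Tᶜ c β C₄ d hc hβ1 hC hn hd
      (fun x => by
        rw [hmat, hrow x, hβ]
        refine (hT2 x).trans ?_
        linarith)
      (fun x => by
        rw [hmat]
        exact hT3 x)
      (by
        rw [hmat]
        have h1 : ee G univ univ = 2 * (Nat.card G.edgeSet : ℝ) := by
          have h2 := Pool.Agent.N471.CC.two_edges_eq G
          unfold ee
          rw [Set.ncard_eq_toFinset_card'] at h2
          rw [← h2, Nat.card_eq_fintype_card, ← Set.toFinset_card]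
        have h3 : ee (del G T) univ univ = ∑ x, ∑ y, (del G T).adjMatrix ℝ x y := by
          unfold ee
          refine Finset.sum_congr rfl fun x _ => Finset.sum_congr rfl fun y _ => ?_
          rw [SimpleGraph.adjMatrix_apply]
          congr
        have h4 := ee_del G T
        rw [h1, h3] at h4
        have h5 : (Fintype.card V : ℝ) ^ (1 + 1 / (k : ℝ)) = Fintype.card V * d := by
          rw [hd, Real.rpow_add hn0, Real.rpow_one]
        rw [h5] at he hT1
        linarith) u v hu hv a b hb hab ha haa hbb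
    linarith

open Pool.Agent.N471.CC in
/-- Randomised communication. -/
theorem protocolsC (k : ℕ) (hk : 2 ≤ k) (c₀ : ℝ) (hc : 0 < c₀) : ∃ C : ℝ, 0 ≤ C ∧
    ∀ (V : Type) [Fintype V] (G : SimpleGraph V) (c : ℕ),
      (SimpleGraph.cycleGraph (2 * k)).Free G →
      c₀ * (Fintype.card V : ℝ) ^ (1 + 1 / (k : ℝ)) ≤ Nat.card G.edgeSet → Decides G c →
      Real.log (Fintype.card V) ≤ C * 2 ^ ((2 * k + 1) * c) := by
  obtain ⟨C, hC0, hC⟩ := marginC k hk c₀ hc
  refine ⟨3 ^ (2 * k + 1) * C, by positivity, ?_⟩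
  intro V _ G c hg he hdec
  obtain ⟨M, hM, hM1, hM2⟩ := hdec.rc
  have hK : (0 : ℝ) < 3 / 2 * 2 ^ c := by positivity
  have hK1 : (1 : ℝ) ≤ 3 / 2 * 2 ^ c := by
    have : (1 : ℝ) ≤ 2 ^ c := one_le_pow₀ (by norm_num)
    linarith
  obtain ⟨ι, hι, u, v, hu, hv, huv⟩ := vectors _ hK M hM
  have h1 := hC V (EuclideanSpace ℝ ι) G u v (1 / (3 / 2 * 2 ^ c)) (1 / 2 / (3 / 2 * 2 ^ c))
    (by
      have : (0 : ℝ) ≤ 1 / 2 / (3 / 2 * 2 ^ c) := by positivity
      linarith)
    (by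
      rw [div_lt_div_iff_of_pos_right hK]
      norm_num)
    (by
      rw [div_le_one hK]
      exact hK1) hg he hu hv
    (fun x y hxy => by
      rw [huv]
      exact div_le_div_of_nonneg_right (hM1 x y hxy) hK.le)
    (fun x y hne hxy => by
      rw [huv]
      exact div_le_div_of_nonneg_right (hM2 x y hne hxy) hK.le)
  have h2 : (1 : ℝ) / (3 / 2 * 2 ^ c) - 1 / 2 / (3 / 2 * 2 ^ c) = 1 / (3 * 2 ^ c) := by
    field_simp
    norm_num
  rw [h2] at h1
  have h3 : (1 / (3 * 2 ^ c) : ℝ) ^ (2 * k + 1) * (3 ^ (2 * k + 1) * 2 ^ ((2 * k + 1) * c)) = 1 := by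
    rw [mul_comm (2 * k + 1) c, pow_mul, ← mul_pow, ← mul_pow]
    have : (1 / (3 * 2 ^ c) : ℝ) * (3 * 2 ^ c) = 1 := by
      field_simp
    rw [this, one_pow]
  calc Real.log (Fintype.card V)
      = ((1 / (3 * 2 ^ c) : ℝ) ^ (2 * k + 1) * Real.log (Fintype.card V)) *
        (3 ^ (2 * k + 1) * 2 ^ ((2 * k + 1) * c)) := by
        rw [mul_comm ((1 / (3 * 2 ^ c) : ℝ) ^ (2 * k + 1)), mul_assoc, h3, mul_one]
    _ ≤ C * (3 ^ (2 * k + 1) * 2 ^ ((2 * k + 1) * c)) :=
        mul_le_mul_of_nonneg_right h1 (by positivity)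
    _ = _ := by ring

end Pool.Agent.N472.MC
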