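import Mathlib

set_option autoImplicit false

/-!
# Closed walks of length `2 k` in graphs of girth greater than `2 k`
-/

set_option linter.unusedSectionVars false

namespace Pool.Agent.N472.MC

open Finset SimpleGraph

variable {V : Type} [Fintype V] [DecidableEq V] {G : SimpleGraph V}

open Classical in
/-- the adjacency matrix -/
noncomputable def am (G : SimpleGraph V) : Matrix V V ℝ := fun x y => if G.Adj x y then 1 else 0

open Classical in
/-- is there a path of length `j`? -/
noncomputable def pr (G : SimpleGraph V) (j : ℕ) (x y : V) : ℝ :=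
  if ∃ p : G.Walk x y, p.IsPath ∧ p.length = j then 1 else 0

theorem am_nonneg (x y : V) : 0 ≤ am G x y := by
  unfold am
  split_ifs <;> norm_num

theorem pr_nonneg (j : ℕ) (x y : V) : 0 ≤ pr G j x y := by
  unfold pr
  split_ifs <;> norm_num

theorem pr_one {j : ℕ} {x y : V} (p : G.Walk x y) (hp : p.IsPath) (hl : p.length = j) :
    pr G j x y = 1 := by
  unfold pr
  rw [if_pos ⟨p, hp, hl⟩]

theorem am_symm (x y : V) : am G x y = am G y x := by
  unfold am
  by_cases h : G.Adj x y
  · rw [if_pos h, if_pos h.symm]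
  · rw [if_neg h, if_neg fun h' => h h'.symm]

theorem uniq {k : ℕ} (hg : ((2 * k : ℕ) : ℕ∞) < G.egirth) {u v : V} {p q : G.Walk u v}
    (hp : p.IsPath) (hq : q.IsPath) (h : p.length + q.length ≤ 2 * k) : p = q := by
  by_contra hne
  obtain ⟨w, -, -, c, hc, hl⟩ := hp.exists_isCycle_length_le_add_of_ne hq hne
  have h1 := hg.trans_le (egirth_le_length hc)
  have h2 : 2 * k < c.length := by exact_mod_cast h1
  omega

open Classical in
/-- one step -/
theorem step {k : ℕ} (hg : ((2 * k : ℕ) : ℕ∞) < G.egirth) (Δ : ℝ)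
    (hΔ : ∀ x, ∑ y, am G x y ≤ Δ) (j : ℕ) (hj : j + 1 ≤ k) (x y : V) :
    ∑ z, am G x z * pr G j z y ≤
      pr G (j + 1) x y + (if j = 0 then 0 else Δ * pr G (j - 1) x y) := by
  set Z₁ := univ.filter fun z => G.Adj x z ∧ ∃ p : G.Walk z y, p.IsPath ∧ p.length = j ∧
    x ∉ p.support with hZ₁
  set Z₂ := univ.filter fun z => G.Adj x z ∧ ∃ p : G.Walk z y, p.IsPath ∧ p.length = j ∧
    x ∈ p.support with hZ₂
  have h0 : ∀ z, am G x z * pr G j z y ≤ (if z ∈ Z₁ then 1 else 0) + (if z ∈ Z₂ then 1 else 0) := by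
    intro z
    have e1 : (0 : ℝ) ≤ if z ∈ Z₁ then 1 else 0 := by split_ifs <;> norm_num
    have e2 : (0 : ℝ) ≤ if z ∈ Z₂ then 1 else 0 := by split_ifs <;> norm_num
    by_cases hz : G.Adj x z
    · by_cases hp : ∃ p : G.Walk z y, p.IsPath ∧ p.length = j
      · obtain ⟨p, hp1, hp2⟩ := hp
        have hval : am G x z * pr G j z y = 1 := by
          rw [pr_one p hp1 hp2]
          unfold am
          rw [if_pos hz, mul_one]
        rw [hval]
        by_cases hx : x ∈ p.support
        · have : z ∈ Z₂ := by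
            rw [hZ₂, mem_filter]
            exact ⟨mem_univ _, hz, p, hp1, hp2, hx⟩
          rw [if_pos this]
          linarith
        · have : z ∈ Z₁ := by
            rw [hZ₁, mem_filter]
            exact ⟨mem_univ _, hz, p, hp1, hp2, hx⟩
          rw [if_pos this]
          linarith
      · have : pr G j z y = 0 := by
          unfold pr
          rw [if_neg hp]
        rw [this, mul_zero]
        linarith
    · have : am G x z = 0 := by
        unfold am
        rw [if_neg hz]
      rw [this, zero_mul]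
      linarith
  have h1 : (Z₁.card : ℝ) ≤ pr G (j + 1) x y := by
    rcases Z₁.eq_empty_or_nonempty with he | ⟨z, hz⟩
    · rw [he, card_empty, Nat.cast_zero]
      exact pr_nonneg _ _ _
    · have hz' := hz
      rw [hZ₁, mem_filter] at hz'
      obtain ⟨-, hxz, p, hp1, hp2, hp3⟩ := hz'
      have hP : (Walk.cons hxz p).IsPath := by
        rw [Walk.cons_isPath_iff]
        exact ⟨hp1, hp3⟩
      rw [pr_one (Walk.cons hxz p) hP (by rw [Walk.length_cons, hp2])]
      have : Z₁.card ≤ 1 := by
        refine card_le_one.2 fun a ha b hb => ?_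
        rw [hZ₁, mem_filter] at ha hb
        obtain ⟨-, hxa, q, hq1, hq2, hq3⟩ := ha
        obtain ⟨-, hxb, r, hr1, hr2, hr3⟩ := hb
        have hQ : (Walk.cons hxa q).IsPath := by
          rw [Walk.cons_isPath_iff]
          exact ⟨hq1, hq3⟩
        have hR : (Walk.cons hxb r).IsPath := by
          rw [Walk.cons_isPath_iff]
          exact ⟨hr1, hr3⟩
        have h6 := uniq hg hQ hR (by rw [Walk.length_cons, Walk.length_cons]; omega)
        have h7 := congrArg Walk.snd h6
        simpa using h7
      exact_mod_cast this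
  have h2 : (Z₂.card : ℝ) ≤ if j = 0 then 0 else Δ * pr G (j - 1) x y := by
    have key : ∀ z ∈ Z₂, 1 ≤ j ∧ pr G (j - 1) x y = 1 := by
      intro z hz
      rw [hZ₂, mem_filter] at hz
      obtain ⟨-, hxz, p, hp1, hp2, hp3⟩ := hz
      have ht := hp1.takeUntil hp3
      have hl : (p.takeUntil x hp3).length + (p.dropUntil x hp3).length = p.length := by
        rw [← Walk.length_append, Walk.take_spec]
      have hE : (Walk.cons hxz.symm (Walk.nil : G.Walk x x)).IsPath := by
        rw [Walk.cons_isPath_iff]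
        refine ⟨Walk.IsPath.nil, ?_⟩
        simp [hxz.ne']
      have h6 := uniq hg ht hE (by rw [Walk.length_cons, Walk.length_nil]; omega)
      have h7 := congrArg Walk.length h6
      rw [Walk.length_cons, Walk.length_nil] at h7
      refine ⟨by omega, pr_one (p.dropUntil x hp3) (hp1.dropUntil hp3) (by omega)⟩
    rcases Z₂.eq_empty_or_nonempty with he | ⟨z, hz⟩
    · rw [he, card_empty, Nat.cast_zero]
      have hΔ0 : 0 ≤ Δ := (Finset.sum_nonneg fun y _ => am_nonneg x y).trans (hΔ x)
      split_ifs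
      · exact le_rfl
      · exact mul_nonneg hΔ0 (pr_nonneg _ _ _)
    · obtain ⟨h3, h4⟩ := key z hz
      rw [if_neg (by omega), h4, mul_one]
      refine le_trans ?_ (hΔ x)
      have h5 : (Z₂.card : ℝ) = ∑ z, if z ∈ Z₂ then (1 : ℝ) else 0 := by
        rw [Finset.sum_ite_mem, univ_inter, sum_const, nsmul_eq_mul, mul_one]
      rw [h5]
      refine Finset.sum_le_sum fun z _ => ?_
      by_cases hz : z ∈ Z₂
      · rw [if_pos hz]
        rw [hZ₂, mem_filter] at hz
        unfold am
        rw [if_pos hz.2.1]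
      · rw [if_neg hz]
        exact am_nonneg _ _
  calc ∑ z, am G x z * pr G j z y
      ≤ ∑ z, ((if z ∈ Z₁ then (1 : ℝ) else 0) + (if z ∈ Z₂ then 1 else 0)) :=
        Finset.sum_le_sum fun z _ => h0 z
    _ = Z₁.card + Z₂.card := by
        rw [Finset.sum_add_distrib, Finset.sum_ite_mem, Finset.sum_ite_mem]
        simp
    _ ≤ _ := add_le_add h1 h2

theorem walks {k : ℕ} (hg : ((2 * k : ℕ) : ℕ∞) < G.egirth) (δ : ℝ) (hδ : 0 ≤ δ)
    (hΔ : ∀ x, ∑ y, am G x y ≤ δ ^ 2) (i : ℕ) (hi : i ≤ k) : ∀ x y : V,
    (am G ^ i) x y ≤ 2 ^ i * ∑ j ∈ range (i + 1), δ ^ (i - j) * pr G j x y := by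
  induction i with
  | zero =>
    intro x y
    rw [pow_zero, pow_zero, one_mul, zero_add, sum_range_one, Nat.sub_zero, pow_zero, one_mul,
      Matrix.one_apply]
    split_ifs with h
    · subst h
      rw [pr_one (j := 0) (Walk.nil : G.Walk x x) Walk.IsPath.nil Walk.length_nil]
    · exact pr_nonneg _ _ _
  | succ i ih =>
    intro x y
    have ih' := ih (by omega)
    rw [pow_succ' (am G), Matrix.mul_apply]
    have hpos : ∀ j, 0 ≤ δ ^ (i + 1 - j) * pr G j x y := fun j =>
      mul_nonneg (pow_nonneg hδ _) (pr_nonneg _ _ _)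
    calc ∑ z, am G x z * (am G ^ i) z y
        ≤ ∑ z, am G x z * (2 ^ i * ∑ j ∈ range (i + 1), δ ^ (i - j) * pr G j z y) :=
          Finset.sum_le_sum fun z _ => mul_le_mul_of_nonneg_left (ih' z y) (am_nonneg _ _)
      _ = 2 ^ i * ∑ j ∈ range (i + 1), δ ^ (i - j) * ∑ z, am G x z * pr G j z y := by
          rw [Finset.mul_sum]
          simp only [Finset.mul_sum]
          rw [Finset.sum_comm]
          refine Finset.sum_congr rfl fun j _ => Finset.sum_congr rfl fun z _ => ?_
          ring
      _ ≤ 2 ^ i * ∑ j ∈ range (i + 1), δ ^ (i - j) *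
            (pr G (j + 1) x y + (if j = 0 then 0 else δ ^ 2 * pr G (j - 1) x y)) := by
          refine mul_le_mul_of_nonneg_left (Finset.sum_le_sum fun j hj => ?_) (by positivity)
          rw [mem_range] at hj
          exact mul_le_mul_of_nonneg_left (step hg _ hΔ j (by omega) x y) (pow_nonneg hδ _)
      _ = 2 ^ i * (∑ j ∈ range (i + 1), δ ^ (i - j) * pr G (j + 1) x y +
            ∑ j ∈ range (i + 1), δ ^ (i - j) *
              (if j = 0 then 0 else δ ^ 2 * pr G (j - 1) x y)) := by
          rw [← Finset.sum_add_distrib]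
          congr 1
          refine Finset.sum_congr rfl fun j _ => ?_
          ring
      _ ≤ 2 ^ i * (∑ j ∈ range (i + 2), δ ^ (i + 1 - j) * pr G j x y +
            ∑ j ∈ range (i + 2), δ ^ (i + 1 - j) * pr G j x y) := by
          refine mul_le_mul_of_nonneg_left (add_le_add ?_ ?_) (by positivity)
          · rw [Finset.sum_range_succ' _ (i + 1)]
            have : ∀ j ∈ range (i + 1), δ ^ (i - j) * pr G (j + 1) x y =
                δ ^ (i + 1 - (j + 1)) * pr G (j + 1) x y := by
              intro j _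
              rw [Nat.add_sub_add_right]
            rw [Finset.sum_congr rfl this]
            have := hpos 0
            linarith
          · rw [Finset.sum_range_succ' _ i]
            have h1 : ∀ j ∈ range i, δ ^ (i - (j + 1)) *
                (if j + 1 = 0 then 0 else δ ^ 2 * pr G (j + 1 - 1) x y) =
                δ ^ (i + 1 - j) * pr G j x y := by
              intro j hj
              rw [mem_range] at hj
              rw [if_neg (by omega), Nat.add_sub_cancel, ← mul_assoc, ← pow_add]
              congr 2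
              omega
            rw [Finset.sum_congr rfl h1, if_pos rfl, mul_zero, add_zero]
            refine Finset.sum_le_sum_of_subset_of_nonneg (range_subset_range.2 (by omega)) ?_
            intro j _ _
            exact hpos j
      _ = 2 ^ (i + 1) * ∑ j ∈ range (i + 1 + 1), δ ^ (i + 1 - j) * pr G j x y := by
          ring

theorem row (Δ : ℝ) (hΔ0 : 0 ≤ Δ) (hΔ : ∀ x, ∑ y, am G x y ≤ Δ) (j : ℕ) : ∀ x : V,
    ∑ y, pr G j x y ≤ Δ ^ j := by
  induction j with
  | zero =>
    intro x
    rw [pow_zero]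
    calc ∑ y, pr G 0 x y ≤ ∑ y, (if y = x then (1 : ℝ) else 0) := by
          refine Finset.sum_le_sum fun y _ => ?_
          unfold pr
          by_cases h : ∃ p : G.Walk x y, p.IsPath ∧ p.length = 0
          · rw [if_pos h]
            obtain ⟨p, -, hp⟩ := h
            rw [if_pos (Walk.eq_of_length_eq_zero hp).symm]
          · rw [if_neg h]
            split_ifs <;> norm_num
      _ = 1 := by
          rw [Finset.sum_ite_eq' univ x, if_pos (mem_univ _)]
  | succ j ih =>
    intro x
    have h1 : ∀ y, pr G (j + 1) x y ≤ ∑ z, am G x z * pr G j z y := by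
      intro y
      have hn : ∀ z ∈ (univ : Finset V), 0 ≤ am G x z * pr G j z y := fun z _ =>
        mul_nonneg (am_nonneg _ _) (pr_nonneg _ _ _)
      by_cases h : ∃ p : G.Walk x y, p.IsPath ∧ p.length = j + 1
      · obtain ⟨p, hp, hl⟩ := h
        rw [pr_one p hp hl]
        cases p with
        | nil => simp at hl
        | cons hxz q =>
          rename_i z
          rw [Walk.length_cons] at hl
          rw [Walk.cons_isPath_iff] at hp
          refine le_trans (le_of_eq ?_) (Finset.single_le_sum hn (mem_univ z))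
          rw [pr_one q hp.1 (by omega)]
          unfold am
          rw [if_pos hxz, mul_one]
      · have : pr G (j + 1) x y = 0 := by
          unfold pr
          rw [if_neg h]
        rw [this]
        exact Finset.sum_nonneg hn
    calc ∑ y, pr G (j + 1) x y ≤ ∑ y, ∑ z, am G x z * pr G j z y :=
          Finset.sum_le_sum fun y _ => h1 y
      _ = ∑ z, am G x z * ∑ y, pr G j z y := by
          rw [Finset.sum_comm]
          simp only [Finset.mul_sum]
      _ ≤ ∑ z, am G x z * Δ ^ j :=
          Finset.sum_le_sum fun z _ => mul_le_mul_of_nonneg_left (ih z) (am_nonneg _ _)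
      _ = (∑ z, am G x z) * Δ ^ j := by rw [Finset.sum_mul]
      _ ≤ Δ * Δ ^ j := mul_le_mul_of_nonneg_right (hΔ x) (pow_nonneg hΔ0 _)
      _ = Δ ^ (j + 1) := by ring

theorem pow_symm (m : ℕ) (x y : V) : (am G ^ m) x y = (am G ^ m) y x := by
  have h : (am G).transpose = am G := by
    ext x y
    exact am_symm y x
  have h2 : (am G ^ m).transpose = am G ^ m := by
    rw [Matrix.transpose_pow, h]
  conv_lhs => rw [← h2]
  rfl

theorem closed {k : ℕ} (hg : ((2 * k : ℕ) : ℕ∞) < G.egirth) (Δ : ℝ) (hΔ0 : 0 ≤ Δ)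
    (hΔ : ∀ x, ∑ y, am G x y ≤ Δ) (x : V) :
    (am G ^ (2 * k)) x x ≤ 4 ^ k * (k + 1) ^ 2 * Δ ^ k := by
  obtain ⟨δ, hδ0, hδ⟩ : ∃ δ : ℝ, 0 ≤ δ ∧ δ ^ 2 = Δ := ⟨Real.sqrt Δ, Real.sqrt_nonneg _,
    Real.sq_sqrt hΔ0⟩
  have hw := walks hg δ hδ0 (fun x => (hΔ x).trans (le_of_eq hδ.symm)) k le_rfl
  have hn : ∀ y, 0 ≤ (am G ^ k) x y := by
    have : ∀ (m : ℕ) (x y : V), 0 ≤ (am G ^ m) x y := by
      intro m
      induction m with
      | zero =>
        intro x y
        rw [pow_zero, Matrix.one_apply]
        split_ifs <;> norm_num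
      | succ m ih =>
        intro x y
        rw [pow_succ', Matrix.mul_apply]
        exact Finset.sum_nonneg fun z _ => mul_nonneg (am_nonneg _ _) (ih _ _)
    exact this k x
  rw [two_mul, pow_add, Matrix.mul_apply]
  calc ∑ y, (am G ^ k) x y * (am G ^ k) y x
      = ∑ y, ((am G ^ k) x y) ^ 2 := by
        refine Finset.sum_congr rfl fun y _ => ?_
        rw [pow_symm k y x, sq]
    _ ≤ ∑ y, (2 ^ k * ∑ j ∈ range (k + 1), δ ^ (k - j) * pr G j x y) ^ 2 :=
        Finset.sum_le_sum fun y _ => pow_le_pow_left₀ (hn y) (hw x y) 2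
    _ ≤ ∑ y, (2 ^ k) ^ 2 * (((k : ℝ) + 1) * ∑ j ∈ range (k + 1), Δ ^ (k - j) * pr G j x y) := by
        refine Finset.sum_le_sum fun y _ => ?_
        rw [mul_pow]
        refine mul_le_mul_of_nonneg_left ?_ (by positivity)
        have h1 := sq_sum_le_card_mul_sum_sq (s := range (k + 1))
          (f := fun j => δ ^ (k - j) * pr G j x y)
        rw [card_range] at h1
        push_cast at h1
        refine h1.trans (mul_le_mul_of_nonneg_left (Finset.sum_le_sum fun j _ => ?_)
          (by positivity))
        rw [mul_pow, ← pow_mul, mul_comm (k - j) 2, pow_mul, hδ]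
        refine mul_le_mul_of_nonneg_left ?_ (pow_nonneg hΔ0 _)
        unfold pr
        split_ifs <;> norm_num
    _ = (2 ^ k) ^ 2 * (((k : ℝ) + 1) * ∑ j ∈ range (k + 1), Δ ^ (k - j) * ∑ y, pr G j x y) := by
        rw [← Finset.mul_sum, ← Finset.mul_sum, Finset.sum_comm]
        simp only [Finset.mul_sum]
    _ ≤ (2 ^ k) ^ 2 * (((k : ℝ) + 1) * ∑ j ∈ range (k + 1), Δ ^ k) := by
        refine mul_le_mul_of_nonneg_left (mul_le_mul_of_nonneg_left
          (Finset.sum_le_sum fun j hj => ?_) (by positivity)) (by positivity)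
        rw [mem_range] at hj
        calc Δ ^ (k - j) * ∑ y, pr G j x y ≤ Δ ^ (k - j) * Δ ^ j :=
              mul_le_mul_of_nonneg_left (row Δ hΔ0 hΔ j x) (pow_nonneg hΔ0 _)
          _ = Δ ^ k := by
              rw [← pow_add]
              congr 1
              omega
    _ = 4 ^ k * (k + 1) ^ 2 * Δ ^ k := by
        rw [sum_const, card_range, nsmul_eq_mul, ← pow_mul, mul_comm k 2, pow_mul]
        push_cast
        ring

end Pool.Agent.N472.MC
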