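import Pool.Agent.N472.MC.Core
import Pool.Agent.N472.MC.Local

set_option autoImplicit false

/-!
# The final estimate
-/

set_option linter.unusedSectionVars false

namespace Pool.Agent.N472.MC

open Finset

/-- the numerical part -/
theorem numer (k : ℕ) (hk : 2 ≤ k) (c β C₄ ε n d : ℝ) (hc : 0 < c) (hβ : 0 < β) (hC : 0 < C₄)
    (hε : 0 < ε) (hε2 : ε ≤ 2) (hn : 1 ≤ n) (hd : d = n ^ (1 / (k : ℝ)))
    (h : c * ε * n * d / 2 ≤
      8 * (7 * (C₄ / ε ^ (2 * k)) ^ 3) ^ (C₄ / ε ^ (2 * k)) * (β * d) ^ 2) :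
    ε ^ (2 * k + 1) * Real.log n ≤ 2 * (2 ^ (2 * k + 1) * |Real.log (16 * β ^ 2 / c)| +
      2 ^ (2 * k) + 14 * C₄ + 6 * C₄ * |Real.log C₄| + 6 * k * C₄) := by
  have hn0 : 0 < n := by linarith
  have hd0 : 0 < d := by rw [hd]; exact Real.rpow_pos_of_pos hn0 _
  have hk0 : (0 : ℝ) < k := by
    have : 0 < k := by omega
    exact_mod_cast this
  have hk2 : (2 : ℝ) ≤ k := by exact_mod_cast hk
  have hlogd : Real.log d = 1 / k * Real.log n := by rw [hd, Real.log_rpow hn0]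
  have hL : 0 ≤ Real.log n := Real.log_nonneg hn
  obtain ⟨S, hS⟩ : ∃ S, S = C₄ / ε ^ (2 * k) := ⟨_, rfl⟩
  rw [← hS] at h
  have hE : 0 < ε ^ (2 * k) := pow_pos hε _
  have hS0 : 0 < S := by rw [hS]; positivity
  have hX : 0 < 7 * S ^ 3 := by positivity
  -- division by `d`
  have h1 : n ≤ 16 * β ^ 2 / c * (1 / ε) * (7 * S ^ 3) ^ S * d := by
    have h2 : c * ε * n * d / 2 ≤ 8 * (7 * S ^ 3) ^ S * β ^ 2 * d * d := by
      refine h.trans (le_of_eq ?_)
      ring
    have h3 : c * ε * n / 2 * d ≤ (8 * (7 * S ^ 3) ^ S * β ^ 2 * d) * d := by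
      refine le_trans (le_of_eq ?_) h2
      ring
    have h4 := le_of_mul_le_mul_right h3 hd0
    have h5 : n = (c * ε * n / 2) * (2 / (c * ε)) := by field_simp
    rw [h5]
    refine (mul_le_mul_of_nonneg_right h4 (by positivity)).trans (le_of_eq ?_)
    field_simp
    ring
  have h2 : Real.log n ≤ Real.log (16 * β ^ 2 / c) + Real.log (1 / ε) + S * Real.log (7 * S ^ 3) +
      Real.log d := by
    have h3 := Real.log_le_log hn0 h1
    rw [Real.log_mul (by positivity) (by positivity), Real.log_mul (by positivity) (by positivity),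
      Real.log_mul (by positivity) (by positivity), Real.log_rpow hX] at h3
    exact h3
  have h3 : Real.log d ≤ Real.log n / 2 := by
    rw [hlogd]
    have : 1 / (k : ℝ) ≤ 1 / 2 := one_div_le_one_div_of_le (by norm_num) hk2
    have := mul_le_mul_of_nonneg_right this hL
    linarith
  have hlogS : Real.log S = Real.log C₄ + 2 * k * Real.log (1 / ε) := by
    rw [hS, Real.log_div hC.ne' hE.ne', Real.log_pow, one_div, Real.log_inv]
    push_cast
    ring
  have hlog7 : Real.log (7 * S ^ 3) = Real.log 7 + 3 * (Real.log C₄ + 2 * k * Real.log (1 / ε)) := by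
    rw [Real.log_mul (by norm_num) (by positivity), Real.log_pow, hlogS]
    push_cast
    ring
  have h7 : Real.log 7 ≤ 7 := Real.log_le_self (by norm_num)
  have hl : ε * Real.log (1 / ε) ≤ 1 := by
    have h4 : Real.log (1 / ε) ≤ 1 / ε := Real.log_le_self (by positivity)
    calc ε * Real.log (1 / ε) ≤ ε * (1 / ε) := mul_le_mul_of_nonneg_left h4 hε.le
      _ = 1 := by field_simp
  have hE2 : ε ^ (2 * k) ≤ 2 ^ (2 * k) := pow_le_pow_left₀ hε.le hε2 _
  have hE3 : ε ^ (2 * k + 1) ≤ 2 ^ (2 * k + 1) := pow_le_pow_left₀ hε.le hε2 _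
  have i1 : ε ^ (2 * k + 1) * Real.log (16 * β ^ 2 / c) ≤
      2 ^ (2 * k + 1) * |Real.log (16 * β ^ 2 / c)| := by
    calc ε ^ (2 * k + 1) * Real.log (16 * β ^ 2 / c)
        ≤ ε ^ (2 * k + 1) * |Real.log (16 * β ^ 2 / c)| :=
          mul_le_mul_of_nonneg_left (le_abs_self _) (by positivity)
      _ ≤ _ := mul_le_mul_of_nonneg_right hE3 (abs_nonneg _)
  have i2 : ε ^ (2 * k + 1) * Real.log (1 / ε) ≤ 2 ^ (2 * k) := by
    calc ε ^ (2 * k + 1) * Real.log (1 / ε) = ε ^ (2 * k) * (ε * Real.log (1 / ε)) := by ring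
      _ ≤ ε ^ (2 * k) * 1 := mul_le_mul_of_nonneg_left hl hE.le
      _ ≤ _ := by rw [mul_one]; exact hE2
  have i3 : ε ^ (2 * k + 1) * (S * Real.log (7 * S ^ 3)) ≤
      14 * C₄ + 6 * C₄ * |Real.log C₄| + 6 * k * C₄ := by
    have j1 : ε ^ (2 * k + 1) * S = C₄ * ε := by
      rw [hS, pow_succ]
      field_simp
    have j2 : ε * Real.log C₄ ≤ 2 * |Real.log C₄| := by
      calc ε * Real.log C₄ ≤ ε * |Real.log C₄| := mul_le_mul_of_nonneg_left (le_abs_self _) hε.le
        _ ≤ _ := mul_le_mul_of_nonneg_right hε2 (abs_nonneg _)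
    have j3 : ε * Real.log 7 ≤ 14 := by
      have : (0 : ℝ) ≤ Real.log 7 := Real.log_nonneg (by norm_num)
      nlinarith
    calc ε ^ (2 * k + 1) * (S * Real.log (7 * S ^ 3))
        = (ε ^ (2 * k + 1) * S) * Real.log (7 * S ^ 3) := by ring
      _ = C₄ * (ε * Real.log 7 + 3 * (ε * Real.log C₄) + 6 * k * (ε * Real.log (1 / ε))) := by
          rw [j1, hlog7]
          ring
      _ ≤ C₄ * (14 + 3 * (2 * |Real.log C₄|) + 6 * k * 1) := by
          refine mul_le_mul_of_nonneg_left ?_ hC.le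
          have := mul_le_mul_of_nonneg_left hl (by positivity : (0 : ℝ) ≤ 6 * k)
          linarith
      _ = _ := by ring
  have h4 : Real.log n / 2 ≤ Real.log (16 * β ^ 2 / c) + Real.log (1 / ε) +
      S * Real.log (7 * S ^ 3) := by linarith
  have h5 := mul_le_mul_of_nonneg_left h4 (by positivity : 0 ≤ ε ^ (2 * k + 1))
  have h6 : ε ^ (2 * k + 1) * (Real.log (16 * β ^ 2 / c) + Real.log (1 / ε) +
      S * Real.log (7 * S ^ 3)) = ε ^ (2 * k + 1) * Real.log (16 * β ^ 2 / c) +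
      ε ^ (2 * k + 1) * Real.log (1 / ε) + ε ^ (2 * k + 1) * (S * Real.log (7 * S ^ 3)) := by ring
  linarith

end Pool.Agent.N472.MC
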