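import Pool.Agent.N472.MC.Spec

set_option autoImplicit false

/-!
# Averaging over a partition given by rounded eigenvectors
-/

set_option linter.unusedSectionVars false

namespace Pool.Agent.N472.MC

open Finset

variable {V H : Type} [Fintype V] [DecidableEq V] [NormedAddCommGroup H] [InnerProductSpace ℝ H]

theorem norm_sum_sq (c : V → ℝ) (f : V → H) :
    ‖∑ y, c y • f y‖ ^ 2 = ∑ y, ∑ z, c y * c z * inner ℝ (f y) (f z) := by
  rw [← real_inner_self_eq_norm_sq, sum_inner]
  refine Finset.sum_congr rfl fun y _ => ?_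
  rw [inner_sum]
  refine Finset.sum_congr rfl fun z _ => ?_
  rw [real_inner_smul_left, real_inner_smul_right]
  ring

theorem form (A : Matrix V V ℝ) (lam : V → ℝ) (w : V → V → ℝ)
    (hw : ∀ (m : ℕ) (x y : V), (A ^ m) x y = ∑ i, lam i ^ m * w i x * w i y) (f : V → H) (m : ℕ) :
    ∑ y, ∑ z, (A ^ m) y z * inner ℝ (f y) (f z) = ∑ i, lam i ^ m * ‖∑ y, w i y • f y‖ ^ 2 := by
  calc ∑ y, ∑ z, (A ^ m) y z * inner ℝ (f y) (f z)
      = ∑ y, ∑ z, ∑ i, lam i ^ m * (w i y * w i z * inner ℝ (f y) (f z)) := by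
        refine Finset.sum_congr rfl fun y _ => Finset.sum_congr rfl fun z _ => ?_
        rw [hw, Finset.sum_mul]
        refine Finset.sum_congr rfl fun i _ => ?_
        ring
    _ = ∑ i, lam i ^ m * ∑ y, ∑ z, (w i y * w i z * inner ℝ (f y) (f z)) := by
        simp only [Finset.mul_sum]
        rw [Finset.sum_congr rfl fun y _ => Finset.sum_comm, Finset.sum_comm]
    _ = _ := by
        refine Finset.sum_congr rfl fun i _ => ?_
        rw [norm_sum_sq]

theorem normA (A : Matrix V V ℝ) (hA : ∀ x y, A x y = A y x) (lam : V → ℝ) (w : V → V → ℝ)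
    (hw : ∀ (m : ℕ) (x y : V), (A ^ m) x y = ∑ i, lam i ^ m * w i x * w i y) (f : V → H) :
    ∑ x, ‖∑ y, A x y • f y‖ ^ 2 = ∑ i, lam i ^ 2 * ‖∑ y, w i y • f y‖ ^ 2 := by
  rw [← form A lam w hw f 2]
  calc ∑ x, ‖∑ y, A x y • f y‖ ^ 2
      = ∑ x, ∑ y, ∑ z, A x y * A x z * inner ℝ (f y) (f z) := by
        refine Finset.sum_congr rfl fun x _ => ?_
        rw [norm_sum_sq]
    _ = ∑ y, ∑ z, ∑ x, A x y * A x z * inner ℝ (f y) (f z) := by
        rw [Finset.sum_comm]
        refine Finset.sum_congr rfl fun y _ => Finset.sum_comm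
    _ = _ := by
        refine Finset.sum_congr rfl fun y _ => Finset.sum_congr rfl fun z _ => ?_
        rw [← Finset.sum_mul, sq, Matrix.mul_apply]
        congr 1
        refine Finset.sum_congr rfl fun x _ => ?_
        rw [hA x y]

theorem norm1 (A : Matrix V V ℝ) (lam : V → ℝ) (w : V → V → ℝ)
    (hw : ∀ (m : ℕ) (x y : V), (A ^ m) x y = ∑ i, lam i ^ m * w i x * w i y) (f : V → H) :
    ∑ i, ‖∑ y, w i y • f y‖ ^ 2 = ∑ x, ‖f x‖ ^ 2 := by
  have h := form A lam w hw f 0
  simp only [pow_zero, one_mul] at h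
  rw [← h]
  refine Finset.sum_congr rfl fun y _ => ?_
  rw [Finset.sum_eq_single y]
  · rw [Matrix.one_apply_eq, one_mul, real_inner_self_eq_norm_sq]
  · intro z _ hz
    rw [Matrix.one_apply_ne hz.symm, zero_mul]
  · intro h
    exact absurd (mem_univ _) h

/-- Vectors whose scalar products with the large eigenvectors are small. -/
theorem small (A : Matrix V V ℝ) (hA : ∀ x y, A x y = A y x) (lam : V → ℝ) (w : V → V → ℝ)
    (hw : ∀ (m : ℕ) (x y : V), (A ^ m) x y = ∑ i, lam i ^ m * w i x * w i y) (τ S n : ℝ)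
    (hτ : 0 ≤ τ) (hS : 1 ≤ S) (hn : (Fintype.card V : ℝ) = n)
    (hcard : ((univ.filter fun i => τ < |lam i|).card : ℝ) ≤ S) (hlam : ∀ i, |lam i| ≤ S * τ)
    (f q : V → H) (hf : ∀ x, ‖f x‖ ≤ 2) (hq : ∀ x, ‖q x‖ ≤ 1)
    (hs : ∀ i, τ < |lam i| → ‖∑ y, w i y • f y‖ ^ 2 ≤ 4 * n / S ^ 4) :
    |∑ x, ∑ y, A x y * inner ℝ (f x) (q y)| ≤ 3 * τ * n := by
  have hn0 : 0 ≤ n := by
    rw [← hn]
    exact Nat.cast_nonneg _
  have hS0 : 0 < S := by linarith
  have h1 : ∑ x, ‖∑ y, A x y • f y‖ ^ 2 ≤ 8 * τ ^ 2 * n := by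
    rw [normA A hA lam w hw f]
    have h2 : ∀ i, lam i ^ 2 * ‖∑ y, w i y • f y‖ ^ 2 ≤ τ ^ 2 * ‖∑ y, w i y • f y‖ ^ 2 +
        (if τ < |lam i| then (S * τ) ^ 2 * (4 * n / S ^ 4) else 0) := by
      intro i
      by_cases hi : τ < |lam i|
      · rw [if_pos hi]
        have h3 : lam i ^ 2 ≤ (S * τ) ^ 2 := by
          rw [← sq_abs (lam i)]
          exact pow_le_pow_left₀ (abs_nonneg _) (hlam i) 2
        have h4 := mul_le_mul h3 (hs i hi) (sq_nonneg _) (sq_nonneg _)
        have h5 : 0 ≤ τ ^ 2 * ‖∑ y, w i y • f y‖ ^ 2 := by positivity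
        linarith
      · rw [if_neg hi, add_zero]
        push Not at hi
        refine mul_le_mul_of_nonneg_right ?_ (sq_nonneg _)
        rw [← sq_abs (lam i)]
        exact pow_le_pow_left₀ (abs_nonneg _) hi 2
    have h3 : (0 : ℝ) ≤ (S * τ) ^ 2 * (4 * n / S ^ 4) := by positivity
    calc ∑ i, lam i ^ 2 * ‖∑ y, w i y • f y‖ ^ 2
        ≤ ∑ i, (τ ^ 2 * ‖∑ y, w i y • f y‖ ^ 2 +
          (if τ < |lam i| then (S * τ) ^ 2 * (4 * n / S ^ 4) else 0)) :=
          Finset.sum_le_sum fun i _ => h2 i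
      _ = τ ^ 2 * ∑ x, ‖f x‖ ^ 2 + ((univ.filter fun i => τ < |lam i|).card : ℝ) *
            ((S * τ) ^ 2 * (4 * n / S ^ 4)) := by
          rw [Finset.sum_add_distrib, ← Finset.mul_sum, norm1 A lam w hw f, ← Finset.sum_filter,
            sum_const, nsmul_eq_mul]
      _ ≤ τ ^ 2 * (4 * n) + S * ((S * τ) ^ 2 * (4 * n / S ^ 4)) := by
          refine add_le_add (mul_le_mul_of_nonneg_left ?_ (sq_nonneg _))
            (mul_le_mul_of_nonneg_right hcard h3)
          calc ∑ x, ‖f x‖ ^ 2 ≤ ∑ _x : V, (2 : ℝ) ^ 2 :=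
                Finset.sum_le_sum fun x _ => pow_le_pow_left₀ (norm_nonneg _) (hf x) 2
            _ = 4 * n := by
                rw [sum_const, nsmul_eq_mul, card_univ, hn]
                ring
      _ = 4 * τ ^ 2 * n * (1 + 1 / S) := by
          field_simp
      _ ≤ 4 * τ ^ 2 * n * 2 := by
          refine mul_le_mul_of_nonneg_left ?_ (by positivity)
          have : 1 / S ≤ 1 := by
            rw [div_le_one hS0]
            exact hS
          linarith
      _ = 8 * τ ^ 2 * n := by ring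
  have h2 : ∑ x, ∑ y, A x y * inner ℝ (f x) (q y) = ∑ y, inner ℝ (∑ x, A y x • f x) (q y) := by
    rw [Finset.sum_comm]
    refine Finset.sum_congr rfl fun y _ => ?_
    rw [sum_inner]
    refine Finset.sum_congr rfl fun x _ => ?_
    rw [real_inner_smul_left, hA x y]
  have h3 : |∑ x, ∑ y, A x y * inner ℝ (f x) (q y)| ≤ ∑ y, ‖∑ x, A y x • f x‖ := by
    rw [h2]
    refine (Finset.abs_sum_le_sum_abs _ _).trans (Finset.sum_le_sum fun y _ => ?_)
    refine (abs_real_inner_le_norm _ _).trans ?_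
    have := mul_le_mul_of_nonneg_left (hq y) (norm_nonneg (∑ x, A y x • f x))
    linarith
  refine h3.trans ?_
  have h4 := sq_sum_le_card_mul_sum_sq (s := (univ : Finset V)) (f := fun y => ‖∑ x, A y x • f x‖)
  rw [card_univ, hn] at h4
  have h5 : (∑ y, ‖∑ x, A y x • f x‖) ^ 2 ≤ (3 * τ * n) ^ 2 := by
    calc (∑ y, ‖∑ x, A y x • f x‖) ^ 2 ≤ n * ∑ y, ‖∑ x, A y x • f x‖ ^ 2 := h4
      _ ≤ n * (8 * τ ^ 2 * n) := mul_le_mul_of_nonneg_left h1 hn0
      _ ≤ (3 * τ * n) ^ 2 := by nlinarith [sq_nonneg (τ * n)]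
  exact abs_le_of_sq_le_sq' h5 (by positivity) |>.2

/-- averaging kernel of a partition -/
noncomputable def P {K : Type} [DecidableEq K] (c : V → K) (x y : V) : ℝ :=
  if c x = c y then 1 / ((univ.filter fun z => c z = c y).card : ℝ) else 0

section P

variable {K : Type} [DecidableEq K] (c : V → K)

theorem cell_pos (y : V) : 0 < ((univ.filter fun z => c z = c y).card : ℝ) := by
  have : 0 < (univ.filter fun z => c z = c y).card :=
    card_pos.2 ⟨y, mem_filter.2 ⟨mem_univ _, rfl⟩⟩
  exact_mod_cast this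

theorem P_nonneg (x y : V) : 0 ≤ P c x y := by
  unfold P
  split_ifs
  · exact div_nonneg zero_le_one (cell_pos c y).le
  · exact le_rfl

theorem P_symm (x y : V) : P c x y = P c y x := by
  unfold P
  by_cases h : c x = c y
  · rw [if_pos h, if_pos h.symm, h]
  · rw [if_neg h, if_neg fun h' => h h'.symm]

theorem P_row (y : V) : ∑ x, P c x y = 1 := by
  unfold P
  rw [← Finset.sum_filter, sum_const, nsmul_eq_mul]
  have := (cell_pos c y).ne'
  field_simp

theorem P_row' (x : V) : ∑ y, P c x y = 1 := by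
  rw [← P_row c x]
  exact Finset.sum_congr rfl fun y _ => P_symm c x y

theorem P_le (x y : V) : P c x y ≤ 1 / ((univ.filter fun z => c z = c y).card : ℝ) := by
  unfold P
  split_ifs
  · exact le_rfl
  · exact div_nonneg zero_le_one (cell_pos c y).le

/-- sum over the cells -/
theorem sum_inv : ∑ y, 1 / ((univ.filter fun z => c z = c y).card : ℝ) =
    ((univ.image c).card : ℝ) := by
  rw [← Finset.sum_fiberwise_of_maps_to (s := univ) (t := univ.image c) (g := c)
    (fun y _ => mem_image_of_mem c (mem_univ y))]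
  rw [Finset.card_eq_sum_ones, Nat.cast_sum]
  refine Finset.sum_congr rfl fun v hv => ?_
  obtain ⟨y, -, hy⟩ := mem_image.1 hv
  have h1 : ∀ x ∈ univ.filter (fun z => c z = v), 1 / ((univ.filter fun z => c z = c x).card : ℝ) =
      1 / ((univ.filter fun z => c z = v).card : ℝ) := by
    intro x hx
    rw [mem_filter] at hx
    rw [hx.2]
  rw [Finset.sum_congr rfl h1, sum_const, nsmul_eq_mul, Nat.cast_one]
  have := (cell_pos c y).ne'
  rw [hy] at this
  field_simp

/-- average over the cells -/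
noncomputable def av (p : V → H) (x : V) : H := ∑ y, P c x y • p y

theorem av_norm (p : V → H) (hp : ∀ x, ‖p x‖ ≤ 1) (x : V) : ‖av c p x‖ ≤ 1 := by
  unfold av
  calc ‖∑ y, P c x y • p y‖ ≤ ∑ y, ‖P c x y • p y‖ := norm_sum_le _ _
    _ ≤ ∑ y, P c x y := by
        refine Finset.sum_le_sum fun y _ => ?_
        rw [norm_smul, Real.norm_of_nonneg (P_nonneg c x y)]
        have := mul_le_mul_of_nonneg_left (hp y) (P_nonneg c x y)
        linarith
    _ = 1 := P_row' c x

/-- sums of the differences against functions which are constant on the cells -/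
theorem av_const (p : V → H) (g : V → ℝ) (hg : ∀ x y, c x = c y → g x = g y) :
    ∑ x, g x • (p x - av c p x) = 0 := by
  have h1 : ∑ x, g x • av c p x = ∑ y, g y • p y := by
    unfold av
    calc ∑ x, g x • ∑ y, P c x y • p y = ∑ x, ∑ y, (g y * P c x y) • p y := by
          refine Finset.sum_congr rfl fun x _ => ?_
          rw [Finset.smul_sum]
          refine Finset.sum_congr rfl fun y _ => ?_
          rw [smul_smul]
          by_cases h : c x = c y
          · rw [hg x y h]
          · have : P c x y = 0 := by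
              unfold P
              rw [if_neg h]
            rw [this, mul_zero, mul_zero]
      _ = ∑ y, (g y * ∑ x, P c x y) • p y := by
          rw [Finset.sum_comm]
          refine Finset.sum_congr rfl fun y _ => ?_
          rw [← Finset.sum_smul, Finset.mul_sum]
      _ = ∑ y, g y • p y := by
          refine Finset.sum_congr rfl fun y _ => ?_
          rw [P_row, mul_one]
  simp only [smul_sub]
  rw [Finset.sum_sub_distrib, h1, sub_self]

/-- the average is close on functions which are nearly constant on the cells -/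
theorem av_small (p : V → H) (hp : ∀ x, ‖p x‖ ≤ 1) (g h : V → ℝ)
    (hg : ∀ x y, c x = c y → g x = g y) (ε : ℝ) (hε : ∀ x, |h x - g x| ≤ ε) :
    ‖∑ x, h x • (p x - av c p x)‖ ≤ 2 * ε * Fintype.card V := by
  have h1 : ∑ x, h x • (p x - av c p x) = ∑ x, (h x - g x) • (p x - av c p x) := by
    simp only [sub_smul]
    rw [Finset.sum_sub_distrib, av_const c p g hg, sub_zero]
  rw [h1]
  refine (norm_sum_le _ _).trans ?_
  calc ∑ x, ‖(h x - g x) • (p x - av c p x)‖ ≤ ∑ _x : V, ε * 2 := by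
        refine Finset.sum_le_sum fun x _ => ?_
        rw [norm_smul]
        refine mul_le_mul (hε x) ?_ (norm_nonneg _) ((abs_nonneg _).trans (hε x))
        refine (norm_sub_le _ _).trans ?_
        have := hp x
        have := av_norm c p hp x
        linarith
    _ = 2 * ε * Fintype.card V := by
        rw [sum_const, nsmul_eq_mul, card_univ]
        ring

end P

end Pool.Agent.N472.MC
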