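import Mathlib

set_option autoImplicit false

/-!
# Powers of a real symmetric matrix in terms of an orthonormal basis of eigenvectors
-/

namespace Pool.Agent.N472.MC

open Finset

theorem spec {V : Type} [Fintype V] [DecidableEq V] (A : Matrix V V ℝ) (hA : ∀ x y, A x y = A y x) :
    ∃ (lam : V → ℝ) (w : V → V → ℝ), (∀ i j, ∑ x, w i x * w j x = if i = j then 1 else 0) ∧
      ∀ (m : ℕ) (x y : V), (A ^ m) x y = ∑ i, lam i ^ m * w i x * w i y := by
  have hH : A.IsHermitian := by
    ext x y
    simp [Matrix.conjTranspose_apply, hA x y]
  set U : Matrix V V ℝ := (hH.eigenvectorUnitary : Matrix V V ℝ) with hU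
  have hU1 : U * star U = 1 := Unitary.coe_mul_star_self hH.eigenvectorUnitary
  have hU2 : star U * U = 1 := Unitary.coe_star_mul_self hH.eigenvectorUnitary
  have hAU : ∀ i x, ∑ z, A x z * U z i = hH.eigenvalues i * U x i := by
    intro i x
    have h := congrFun (hH.mulVec_eigenvectorBasis i) x
    simpa [Matrix.mulVec, dotProduct, hU, Matrix.IsHermitian.eigenvectorUnitary_apply] using h
  refine ⟨hH.eigenvalues, fun i x => U x i, fun i j => ?_, fun m => ?_⟩
  · have h := congrFun (congrFun hU2 i) j
    rw [Matrix.mul_apply, Matrix.one_apply] at h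
    rw [← h]
    refine Finset.sum_congr rfl fun x _ => ?_
    rw [Matrix.star_apply, star_trivial]
  · induction m with
    | zero =>
      intro x y
      have h := congrFun (congrFun hU1 x) y
      rw [Matrix.mul_apply] at h
      rw [pow_zero, ← h]
      refine Finset.sum_congr rfl fun i _ => ?_
      rw [Matrix.star_apply, star_trivial, pow_zero, one_mul]
    | succ m ih =>
      intro x y
      rw [pow_succ', Matrix.mul_apply]
      calc ∑ z, A x z * (A ^ m) z y
          = ∑ z, ∑ i, hH.eigenvalues i ^ m * (A x z * U z i) * U y i := by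
            refine Finset.sum_congr rfl fun z _ => ?_
            rw [ih z y, Finset.mul_sum]
            refine Finset.sum_congr rfl fun i _ => ?_
            ring
        _ = ∑ i, ∑ z, hH.eigenvalues i ^ m * (A x z * U z i) * U y i := Finset.sum_comm
        _ = ∑ i, hH.eigenvalues i ^ (m + 1) * U x i * U y i := by
            refine Finset.sum_congr rfl fun i _ => ?_
            rw [← Finset.sum_mul, ← Finset.mul_sum, hAU i x]
            ring

end Pool.Agent.N472.MC
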